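import Mathlib

/-!
Definitions for driven Lindbladians on `ℂ^d` (problem MP_4e5d1f_mp).
-/

namespace Pool.Agent.Helper57.Lindblad

open scoped Matrix ComplexOrder
open MeasureTheory

/-- `B(ℂ^d)`: complex `d × d` matrices. -/
abbrev Op (d : ℕ) : Type := Matrix (Fin d) (Fin d) ℂ

/-- `D_L(ρ) = L ρ L† - (1/2) {L†L, ρ}`. -/
noncomputable def dissipatorOf {d : ℕ} (L ρ : Op d) : Op d :=
  L * ρ * Lᴴ - (1 / 2 : ℂ) • (Lᴴ * L * ρ + ρ * (Lᴴ * L))

/-- The dissipator `D = ∑ j, D_{L_j}`. -/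
noncomputable def dissipator {d m : ℕ} (L : Fin m → Op d) (ρ : Op d) : Op d :=
  ∑ j, dissipatorOf (L j) ρ

/-- The Lindbladian `ρ ↦ -i [H, ρ] + D(ρ)`. -/
noncomputable def lindbladian {d m : ℕ} (L : Fin m → Op d) (H ρ : Op d) : Op d :=
  (-Complex.I) • (H * ρ - ρ * H) + dissipator L ρ

/-- A drive: a Hermitian-matrix-valued function on `[0,∞)`, measurable and locally bounded. -/
structure IsDrive {d : ℕ} (H : ℝ → Op d) : Prop where
  /-- `H(t)` is Hermitian for `t ≥ 0`. -/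
  hermitian : ∀ t, 0 ≤ t → (H t).IsHermitian
  /-- every entry of `H` is a measurable function of time. -/
  measurable : ∀ i j, Measurable fun t => H t i j
  /-- `H` is bounded on every interval `[0,T]`. -/
  locallyBounded : ∀ T : ℝ, ∃ M : ℝ, ∀ t, 0 ≤ t → t ≤ T → ∀ i j, ‖H t i j‖ ≤ M

/-- `E` is the propagator of `ρ' = -i [H(t), ρ] + D(ρ)`: for `t ≥ s ≥ 0`, `E t s` is a linear map,
`E s s = id`, and `t ↦ E t s ρ` is the continuous solution of the (integrated) equation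
`E t s ρ = ρ + ∫_s^t L_r (E r s ρ) dr`; this is the Caratheodory form of
`∂_t E = L_t ∘ E` for a merely measurable, locally bounded drive.  Integrals are entrywise. -/
structure IsPropagator {d m : ℕ} (L : Fin m → Op d) (H : ℝ → Op d)
    (E : ℝ → ℝ → (Op d →ₗ[ℂ] Op d)) : Prop where
  /-- `E s s = id`. -/
  init : ∀ s, 0 ≤ s → E s s = LinearMap.id
  /-- `t ↦ E t s ρ` is continuous on `[s,∞)`. -/
  continuousOn : ∀ s, 0 ≤ s → ∀ ρ i j, ContinuousOn (fun t => E t s ρ i j) (Set.Ici s)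
  /-- the integrated evolution equation. -/
  integral : ∀ s t, 0 ≤ s → s ≤ t → ∀ ρ i j,
    E t s ρ i j = ρ i j + ∫ r in s..t, lindbladian L (H r) (E r s ρ) i j

/-- The trace norm `‖X‖₁`: the sum of the singular values of `X`, i.e. of the square roots of the
eigenvalues of `X†X`. -/
noncomputable def traceNorm {d : ℕ} (X : Op d) : ℝ :=
  ∑ i, √((Matrix.isHermitian_conjTranspose_mul_self X).eigenvalues i)

/-- Density matrices. -/
def IsDensity {d : ℕ} (ρ : Op d) : Prop := ρ.PosSemidef ∧ ρ.trace = 1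

/-- The estimate `‖E_{t,s}(ρ) - E_{t,s}(σ)‖₁ ≤ K e^{-γ(t-s)} ‖ρ - σ‖₁` for all density matrices
`ρ, σ` and all `t ≥ s ≥ 0`. -/
def ContractiveWith {d : ℕ} (K γ : ℝ) (E : ℝ → ℝ → (Op d →ₗ[ℂ] Op d)) : Prop :=
  ∀ ρ σ : Op d, IsDensity ρ → IsDensity σ → ∀ s t : ℝ, 0 ≤ s → s ≤ t →
    traceNorm (E t s ρ - E t s σ) ≤ K * Real.exp (-γ * (t - s)) * traceNorm (ρ - σ)

end Pool.Agent.Helper57.Lindblad
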