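import Mathlib
import Pool.Agent.Helper57.Lindblad.Defs

/-!
Linear algebra for the proof of MP_4e5d1f_mp: sums of the smallest eigenvalues.
-/

namespace Pool.Agent.Helper57.Lindblad

open scoped Matrix ComplexOrder
open Matrix

variable {d : ℕ}

section psd
open scoped MatrixOrder Matrix.Norms.L2Operator

lemma exists_eq_ctm {B : Op d} (hB : B.PosSemidef) : ∃ C : Op d, B = Cᴴ * C := by
  obtain ⟨C, hC⟩ := CStarAlgebra.nonneg_iff_eq_star_mul_self.mp hB.nonneg
  exact ⟨C, hC⟩

end psd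

/-- trace of a product of two positive semidefinite matrices is nonnegative. -/
lemma trace_mul_re_nonneg {A B : Op d} (hA : A.PosSemidef)
    (hB : B.PosSemidef) : 0 ≤ (A * B).trace.re := by
  obtain ⟨C, rfl⟩ := exists_eq_ctm hB
  have h1 : (A * (Cᴴ * C)).trace = (C * A * Cᴴ).trace := by
    rw [← Matrix.mul_assoc, Matrix.trace_mul_comm, ← Matrix.mul_assoc]
  rw [h1]
  have := (hA.mul_mul_conjTranspose_same C).trace_nonneg
  exact (Complex.le_def.1 this).1

/-- Orthogonal projections of rank (trace) `r`. -/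
def Proj (d r : ℕ) : Set (Op d) := {Q | Qᴴ = Q ∧ Q * Q = Q ∧ Q.trace = (r : ℂ)}

lemma Proj.psd {r : ℕ} {Q : Op d} (hQ : Q ∈ Proj d r) : Q.PosSemidef := by
  have : Q = Qᴴ * Q := by rw [hQ.1, hQ.2.1]
  rw [this]; exact Matrix.posSemidef_conjTranspose_mul_self Q

lemma Proj.compl_psd {r : ℕ} {Q : Op d} (hQ : Q ∈ Proj d r) : (1 - Q).PosSemidef := by
  have : (1 - Q) = (1 - Q)ᴴ * (1 - Q) := by
    rw [Matrix.conjTranspose_sub, hQ.1, Matrix.conjTranspose_one]
    rw [Matrix.sub_mul, Matrix.mul_sub, Matrix.mul_sub, hQ.2.1]; simp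
  rw [this]; exact Matrix.posSemidef_conjTranspose_mul_self _

lemma exists_spectral {Y : Op d} (hY : Y.IsHermitian) :
    ∃ U : Op d, Uᴴ * U = 1 ∧ U * Uᴴ = 1 ∧
      Y = U * diagonal (fun i => ((hY.eigenvalues i : ℝ) : ℂ)) * Uᴴ := by
  refine ⟨(hY.eigenvectorUnitary : Op d), ?_, ?_, ?_⟩
  · exact Unitary.coe_star_mul_self _
  · exact Unitary.coe_mul_star_self _
  · have := hY.spectral_theorem
    rw [Unitary.conjStarAlgAut_apply] at this
    exact this

/-- spectral projection on the coordinates in `S`. -/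
noncomputable def sp (U : Op d) (S : Finset (Fin d)) : Op d :=
  U * diagonal (fun i => if i ∈ S then (1 : ℂ) else 0) * Uᴴ

lemma trace_conj {U : Op d} (hU : Uᴴ * U = 1) (D : Op d) : (U * D * Uᴴ).trace = D.trace := by
  rw [Matrix.trace_mul_comm, ← Matrix.mul_assoc, hU, Matrix.one_mul]

lemma conj_mul {U : Op d} (hU : Uᴴ * U = 1) (D D' : Op d) :
    (U * D * Uᴴ) * (U * D' * Uᴴ) = U * (D * D') * Uᴴ := by
  calc (U * D * Uᴴ) * (U * D' * Uᴴ) = U * D * (Uᴴ * U) * D' * Uᴴ := by
        simp only [Matrix.mul_assoc]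
    _ = U * (D * D') * Uᴴ := by rw [hU]; simp only [Matrix.mul_assoc, Matrix.one_mul]

lemma sp_mem {U : Op d} (hU : Uᴴ * U = 1) (S : Finset (Fin d)) : sp U S ∈ Proj d S.card := by
  refine ⟨?_, ?_, ?_⟩
  · unfold sp
    simp only [Matrix.conjTranspose_mul, Matrix.conjTranspose_conjTranspose,
      Matrix.diagonal_conjTranspose, Matrix.mul_assoc]
    congr 2
    ext i j
    by_cases h : i = j
    · subst h; simp only [diagonal_apply_eq, Pi.star_apply]; split_ifs <;> simp
    · simp [h]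
  · unfold sp
    rw [conj_mul hU, Matrix.diagonal_mul_diagonal]
    congr 3
    ext i; split_ifs <;> simp
  · unfold sp
    rw [trace_conj hU, Matrix.trace_diagonal]
    simp

lemma sp_mul_diag {U : Op d} (hU : Uᴴ * U = 1) (S : Finset (Fin d)) (lam : Fin d → ℝ) :
    sp U S * (U * diagonal (fun i => (lam i : ℂ)) * Uᴴ) =
      U * diagonal (fun i => if i ∈ S then (lam i : ℂ) else 0) * Uᴴ := by
  unfold sp
  rw [conj_mul hU, Matrix.diagonal_mul_diagonal]
  congr 3
  ext i; split_ifs <;> simp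

lemma diag_mul_sp {U : Op d} (hU : Uᴴ * U = 1) (S : Finset (Fin d)) (lam : Fin d → ℝ) :
    (U * diagonal (fun i => (lam i : ℂ)) * Uᴴ) * sp U S =
      U * diagonal (fun i => if i ∈ S then (lam i : ℂ) else 0) * Uᴴ := by
  unfold sp
  rw [conj_mul hU, Matrix.diagonal_mul_diagonal]
  congr 3
  ext i; split_ifs <;> simp

lemma trace_sp_mul {U : Op d} (hU : Uᴴ * U = 1) (S : Finset (Fin d)) (lam : Fin d → ℝ) :
    (sp U S * (U * diagonal (fun i => (lam i : ℂ)) * Uᴴ)).trace.re = ∑ i ∈ S, lam i := by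
  rw [sp_mul_diag hU, trace_conj hU, Matrix.trace_diagonal]
  rw [Complex.re_sum, ← Finset.sum_filter_add_sum_filter_not Finset.univ (fun i => i ∈ S)]
  have h1 : ∑ i ∈ Finset.univ.filter (fun i => ¬ (i ∈ S)),
      (if i ∈ S then (lam i : ℂ) else 0).re = 0 := by
    apply Finset.sum_eq_zero
    intro i hi
    simp at hi
    simp [hi]
  rw [h1, add_zero]
  have h2 : Finset.univ.filter (fun i => i ∈ S) = S := by ext; simp
  rw [h2]
  apply Finset.sum_congr rfl
  intro i hi
  simp [hi]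

/-- diagonal entries of a projection are in `[0,1]` and sum to the trace. -/
lemma proj_diag {R : Op d} (h1 : Rᴴ = R) (h2 : R * R = R) (i : Fin d) :
    0 ≤ (R i i).re ∧ (R i i).re ≤ 1 ∧ (R i i).im = 0 := by
  have h3 : R i i = ∑ k, R i k * R k i := by
    conv_lhs => rw [← h2]
    rfl
  have h4 : ∀ k, R k i = star (R i k) := by
    intro k
    conv_lhs => rw [← h1]
    rfl
  have h5 : R i i = ∑ k, ((‖R i k‖ ^ 2 : ℝ) : ℂ) := by
    rw [h3]
    apply Finset.sum_congr rfl
    intro k _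
    rw [h4 k]
    have := Complex.mul_conj (R i k)
    rw [Complex.normSq_eq_norm_sq] at this
    exact this
  have h6 : (R i i).re = ∑ k, ‖R i k‖ ^ 2 := by
    conv_lhs => rw [h5]
    rw [Complex.re_sum]
    simp only [Complex.ofReal_re]
  have h7 : (R i i).im = 0 := by
    rw [h5, Complex.im_sum]
    simp only [Complex.ofReal_im, Finset.sum_const_zero]
  have h8 : 0 ≤ (R i i).re := by
    rw [h6]; positivity
  refine ⟨h8, ?_, h7⟩
  have h9 : ‖R i i‖ ^ 2 ≤ ∑ k, ‖R i k‖ ^ 2 :=
    Finset.single_le_sum (f := fun k => ‖R i k‖ ^ 2) (fun k _ => by positivity)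
      (Finset.mem_univ i)
  have h10 : ‖R i i‖ ^ 2 = (R i i).re ^ 2 := by
    rw [← Complex.normSq_eq_norm_sq, Complex.normSq_apply, h7]; ring
  rw [h10, ← h6] at h9
  by_contra h
  push Not at h
  nlinarith

/-- Ky Fan type lower bound. -/
lemma proj_lower {U : Op d} (hU' : U * Uᴴ = 1) {r : ℕ} {Q : Op d}
    (hQ : Q ∈ Proj d r)
    {S : Finset (Fin d)} (hS : S.card = r) (lam : Fin d → ℝ)
    (hlow : ∀ i ∈ S, ∀ j, j ∉ S → lam i ≤ lam j) :
    ∑ i ∈ S, lam i ≤ (Q * (U * diagonal (fun i => (lam i : ℂ)) * Uᴴ)).trace.re := by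
  set R : Op d := Uᴴ * Q * U with hR
  have hR1 : Rᴴ = R := by
    rw [hR]
    simp only [Matrix.conjTranspose_mul, Matrix.conjTranspose_conjTranspose, hQ.1,
      Matrix.mul_assoc]
  have hR2 : R * R = R := by
    calc R * R = Uᴴ * Q * (U * Uᴴ) * Q * U := by rw [hR]; simp only [Matrix.mul_assoc]
      _ = Uᴴ * (Q * Q) * U := by rw [hU']; simp only [Matrix.mul_assoc, Matrix.one_mul]
      _ = R := by rw [hQ.2.1]
  have hRtr : R.trace = r := by
    rw [hR, Matrix.trace_mul_comm, ← Matrix.mul_assoc, hU', Matrix.one_mul, hQ.2.2]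
  have htr : (Q * (U * diagonal (fun i => (lam i : ℂ)) * Uᴴ)).trace.re
      = ∑ i, (R i i).re * lam i := by
    have : (Q * (U * diagonal (fun i => (lam i : ℂ)) * Uᴴ)).trace
        = (R * diagonal (fun i => (lam i : ℂ))).trace := by
      rw [hR]
      calc (Q * (U * diagonal (fun i => (lam i : ℂ)) * Uᴴ)).trace
          = ((Q * U * diagonal (fun i => (lam i : ℂ))) * Uᴴ).trace := by
            simp only [Matrix.mul_assoc]
        _ = (Uᴴ * (Q * U * diagonal (fun i => (lam i : ℂ)))).trace := Matrix.trace_mul_comm _ _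
        _ = _ := by simp only [Matrix.mul_assoc]
    rw [this, Matrix.trace]
    simp only [Matrix.diag_apply, Matrix.mul_diagonal, Complex.re_sum]
    apply Finset.sum_congr rfl
    intro i _
    simp
  rw [htr]
  have hsum : ∑ i, (R i i).re = r := by
    have := congrArg Complex.re hRtr
    rw [Matrix.trace, Complex.re_sum] at this
    simpa using this
  have hd := fun i => proj_diag hR1 hR2 i
  -- threshold argument
  rcases S.eq_empty_or_nonempty with hSe | hSne
  · subst hSe
    simp only [Finset.card_empty] at hS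
    subst hS
    have : ∀ i, (R i i).re = 0 := by
      intro i
      have := (Finset.sum_eq_zero_iff_of_nonneg (s := Finset.univ)
        (f := fun i => (R i i).re) (fun i _ => (hd i).1)).1 (by simpa using hsum) i
        (Finset.mem_univ i)
      exact this
    simp [this]
  · obtain ⟨k, hk, hkmax⟩ := S.exists_max_image lam hSne
    have key : ∀ i, (if i ∈ S then (1 : ℝ) else 0) * (lam i - lam k)
        ≤ (R i i).re * (lam i - lam k) := by
      intro i
      by_cases hi : i ∈ S
      · simp only [hi, if_true]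
        have h1 := hkmax i hi
        have h2 := (hd i).2.1
        nlinarith
      · simp only [hi, if_false]
        have h1 := hlow k hk i hi
        have h2 := (hd i).1
        nlinarith
    have h3 := Finset.sum_le_sum (s := Finset.univ) (fun i _ => key i)
    have h4 : ∑ i, (if i ∈ S then (1 : ℝ) else 0) * (lam i - lam k)
        = ∑ i ∈ S, lam i - r * lam k := by
      have : ∀ i, (if i ∈ S then (1 : ℝ) else 0) * (lam i - lam k)
          = if i ∈ S then (lam i - lam k) else 0 := by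
        intro i; split_ifs <;> simp
      simp only [this]
      rw [Finset.sum_ite_mem, Finset.univ_inter, Finset.sum_sub_distrib, Finset.sum_const, hS]
      simp
    have h5 : ∑ i, (R i i).re * (lam i - lam k) = ∑ i, (R i i).re * lam i - r * lam k := by
      simp only [mul_sub]
      rw [Finset.sum_sub_distrib, ← Finset.sum_mul, hsum]
    rw [h4, h5] at h3
    linarith

/-- there is a set of `r` indices with the smallest values. -/
lemma exists_low_set (lam : Fin d → ℝ) {r : ℕ} (hr : r ≤ d) :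
    ∃ S : Finset (Fin d), S.card = r ∧ ∀ i ∈ S, ∀ j, j ∉ S → lam i ≤ lam j := by
  have hne : ((Finset.univ : Finset (Fin d)).powersetCard r).Nonempty := by
    rw [Finset.powersetCard_nonempty]; simpa using hr
  obtain ⟨S, hS, hmin⟩ := Finset.exists_min_image _ (fun S => ∑ i ∈ S, lam i) hne
  rw [Finset.mem_powersetCard] at hS
  refine ⟨S, hS.2, ?_⟩
  intro i hi j hj
  have hji : j ∉ S.erase i := fun h => hj (Finset.mem_of_mem_erase h)
  have hc : (insert j (S.erase i)).card = r := by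
    rw [Finset.card_insert_of_notMem hji, Finset.card_erase_of_mem hi, hS.2]
    have : 0 < S.card := Finset.card_pos.2 ⟨i, hi⟩
    omega
  have := hmin (insert j (S.erase i)) (by
    rw [Finset.mem_powersetCard]; exact ⟨Finset.subset_univ _, hc⟩)
  rw [Finset.sum_insert hji] at this
  have h2 := Finset.add_sum_erase S lam hi
  linarith

lemma conj_diag_psd (U : Op d) (f : Fin d → ℝ) (hf : ∀ i, 0 ≤ f i) :
    (U * diagonal (fun i => (f i : ℂ)) * Uᴴ).PosSemidef := by
  apply Matrix.PosSemidef.mul_mul_conjTranspose_same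
  apply Matrix.PosSemidef.diagonal
  intro i
  simpa using (hf i)

lemma conj_one {U : Op d} (hU' : U * Uᴴ = 1) : U * diagonal (fun _ => (1 : ℂ)) * Uᴴ = 1 := by
  rw [Matrix.diagonal_one, Matrix.mul_one, hU']

/-- `tr (A B) ≤ tr A * tr B` for positive semidefinite matrices. -/
lemma trace_mul_re_le {A B : Op d} (hA : A.PosSemidef) (hB : B.PosSemidef) :
    (A * B).trace.re ≤ A.trace.re * B.trace.re := by
  obtain ⟨U, hU, hU', hB2⟩ := exists_spectral hB.1
  have hnn : ∀ i, 0 ≤ hB.1.eigenvalues i := fun i => hB.eigenvalues_nonneg i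
  set lam := hB.1.eigenvalues with hlam
  have htr : B.trace = ((∑ i, lam i : ℝ) : ℂ) := by
    rw [hB2, trace_conj hU, Matrix.trace_diagonal]; push_cast; rfl
  have hpsd : (((∑ i, lam i : ℝ) : ℂ) • (1 : Op d) - B).PosSemidef := by
    have : ((∑ i, lam i : ℝ) : ℂ) • (1 : Op d) - B
        = U * diagonal (fun i => (((∑ k, lam k) - lam i : ℝ) : ℂ)) * Uᴴ := by
      conv_lhs => rw [hB2, ← conj_one hU']
      rw [← Matrix.smul_mul, ← Matrix.mul_smul, ← Matrix.sub_mul, ← Matrix.mul_sub]
      congr 2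
      ext i j
      by_cases h : i = j
      · subst h; simp
      · simp [h]
    rw [this]
    apply conj_diag_psd
    intro i
    have := Finset.single_le_sum (f := lam) (fun k _ => hnn k) (Finset.mem_univ i)
    linarith
  have := trace_mul_re_nonneg hA hpsd
  rw [Matrix.mul_sub, Matrix.trace_sub, Matrix.mul_smul, Matrix.mul_one, Matrix.trace_smul] at this
  rw [htr]
  simp only [Complex.sub_re, smul_eq_mul, Complex.mul_re, Complex.ofReal_re, Complex.ofReal_im,
    zero_mul, sub_zero] at this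
  simp only [Complex.ofReal_re]
  linarith

/-- Sum of the `r` smallest eigenvalues of a Hermitian matrix, as a minimum over projections. -/
noncomputable def low (r : ℕ) (Y : Op d) : ℝ :=
  sInf {x | ∃ Q ∈ Proj d r, x = (Q * Y).trace.re}

lemma low_bddBelow {r : ℕ} (hr : r ≤ d) {Y : Op d} (hY : Y.IsHermitian) :
    BddBelow {x | ∃ Q ∈ Proj d r, x = (Q * Y).trace.re} := by
  obtain ⟨U, hU, hU', hY2⟩ := exists_spectral hY
  obtain ⟨S, hS, hlow⟩ := exists_low_set hY.eigenvalues hr
  refine ⟨∑ i ∈ S, hY.eigenvalues i, ?_⟩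
  rintro x ⟨Q, hQ, rfl⟩
  have := proj_lower hU' hQ hS _ hlow
  rwa [← hY2] at this

lemma low_le {r : ℕ} (hr : r ≤ d) {Y : Op d} (hY : Y.IsHermitian) {Q : Op d}
    (hQ : Q ∈ Proj d r) : low r Y ≤ (Q * Y).trace.re :=
  csInf_le (low_bddBelow hr hY) ⟨Q, hQ, rfl⟩

lemma low_eq {U : Op d} (hU : Uᴴ * U = 1) (hU' : U * Uᴴ = 1) {r : ℕ} {Y : Op d}
    {lam : Fin d → ℝ} (hY2 : Y = U * diagonal (fun i => (lam i : ℂ)) * Uᴴ)
    {S : Finset (Fin d)} (hS : S.card = r)
    (hlow : ∀ i ∈ S, ∀ j, j ∉ S → lam i ≤ lam j) :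
    low r Y = ∑ i ∈ S, lam i := by
  have hm : sp U S ∈ Proj d r := hS ▸ sp_mem hU S
  have hv : (sp U S * Y).trace.re = ∑ i ∈ S, lam i := by rw [hY2]; exact trace_sp_mul hU S lam
  have hlb : ∀ x ∈ {x | ∃ Q ∈ Proj d r, x = (Q * Y).trace.re}, ∑ i ∈ S, lam i ≤ x := by
    rintro x ⟨Q, hQ, rfl⟩
    rw [hY2]
    exact proj_lower hU' hQ hS lam hlow
  apply le_antisymm
  · rw [← hv]
    exact csInf_le ⟨_, hlb⟩ ⟨_, hm, rfl⟩
  · exact le_csInf ⟨_, _, hm, rfl⟩ hlb

end Pool.Agent.Helper57.Lindblad
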