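import Mathlib
import Pool.Agent.Helper57.Lindblad.LinAlg

/-!
Action of the dissipator on the sums of smallest eigenvalues (MP_4e5d1f_mp).
-/

namespace Pool.Agent.Helper57.Lindblad

open scoped Matrix ComplexOrder
open Matrix

variable {d m : ℕ}

/-- total strength of the jump operators. -/
noncomputable def strength (L : Fin m → Op d) : ℝ := ∑ j, ((L j)ᴴ * L j).trace.re

/-- leakage out of the complement of the projection `Q` into `Q`. -/
noncomputable def leak (L : Fin m → Op d) (Q : Op d) : ℝ :=
  ∑ j, ((L j)ᴴ * Q * L j * (1 - Q)).trace.re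

lemma strength_nonneg (L : Fin m → Op d) : 0 ≤ strength L := by
  apply Finset.sum_nonneg
  intro j _
  have := (Matrix.posSemidef_conjTranspose_mul_self (L j)).trace_nonneg
  exact (Complex.le_def.1 this).1

lemma trace_Q_dissipatorOf (A Q Y : Op d) (hc : Q * Y = Y * Q) :
    (Q * dissipatorOf A Y).trace.re
      = (Aᴴ * Q * A * Y).trace.re - (Aᴴ * A * (Y * Q)).trace.re := by
  unfold dissipatorOf
  rw [Matrix.mul_sub, Matrix.trace_sub, Matrix.mul_smul, Matrix.trace_smul, Matrix.mul_add,
    Matrix.trace_add]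
  have h1 : (Q * (A * Y * Aᴴ)).trace = (Aᴴ * Q * A * Y).trace := by
    calc (Q * (A * Y * Aᴴ)).trace = ((Q * A * Y) * Aᴴ).trace := by simp only [Matrix.mul_assoc]
      _ = (Aᴴ * (Q * A * Y)).trace := Matrix.trace_mul_comm _ _
      _ = _ := by simp only [Matrix.mul_assoc]
  have h2 : (Q * (Aᴴ * A * Y)).trace = (Aᴴ * A * (Y * Q)).trace := by
    calc (Q * (Aᴴ * A * Y)).trace = ((Aᴴ * A * Y) * Q).trace := Matrix.trace_mul_comm _ _
      _ = _ := by simp only [Matrix.mul_assoc]
  have h3 : (Q * (Y * (Aᴴ * A))).trace = (Aᴴ * A * (Y * Q)).trace := by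
    calc (Q * (Y * (Aᴴ * A))).trace = ((Q * Y) * (Aᴴ * A)).trace := by
          simp only [Matrix.mul_assoc]
      _ = ((Aᴴ * A) * (Q * Y)).trace := Matrix.trace_mul_comm _ _
      _ = _ := by rw [hc]
  rw [h1, h2, h3]
  simp only [Complex.sub_re, smul_eq_mul, Complex.mul_re, Complex.add_re, Complex.add_im]
  have e1 : (1 / 2 : ℂ).re = 1 / 2 := by norm_num
  have e2 : (1 / 2 : ℂ).im = 0 := by norm_num
  rw [e1, e2]
  ring

/-- The main local estimate: at a minimising projection the dissipator pushes the sum of the `r`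
smallest eigenvalues up at rate `leak * (gap)` minus a linear loss. -/
lemma exists_min_proj (L : Fin m → Op d) {r : ℕ} (hr : r + 1 ≤ d) {Y : Op d}
    (hY : Y.PosSemidef) :
    ∃ Q ∈ Proj d r, Q * Y = Y * Q ∧ (Q * Y).trace.re = low r Y ∧
      0 ≤ low (r + 1) Y - low r Y ∧
      leak L Q * (low (r + 1) Y - low r Y) - strength L * low r Y
        ≤ (Q * dissipator L Y).trace.re := by
  obtain ⟨U, hU, hU', hY2⟩ := exists_spectral hY.1
  have hnn : ∀ i, 0 ≤ hY.1.eigenvalues i := fun i => hY.eigenvalues_nonneg i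
  set lam := hY.1.eigenvalues with hlam
  obtain ⟨S, hS, hlow⟩ := exists_low_set lam (show r ≤ d by omega)
  have hm : sp U S ∈ Proj d r := hS ▸ sp_mem hU S
  have hlr : low r Y = ∑ i ∈ S, lam i := low_eq hU hU' hY2 hS hlow
  -- gap bound
  set g := low (r + 1) Y - low r Y with hg
  have hgap : ∀ j, j ∉ S → g ≤ lam j := by
    intro j hj
    have hc : (insert j S).card = r + 1 := by
      rw [Finset.card_insert_of_notMem hj, hS]
    have h1 : sp U (insert j S) ∈ Proj d (r + 1) := hc ▸ sp_mem hU (insert j S)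
    have h2 := low_le hr hY.1 h1
    have h3 : (sp U (insert j S) * Y).trace.re = lam j + ∑ i ∈ S, lam i := by
      conv_lhs => rw [hY2]
      rw [trace_sp_mul hU, Finset.sum_insert hj]
    rw [h3] at h2
    rw [hg, hlr]
    linarith
  have hg0 : 0 ≤ g := by
    obtain ⟨S', hS', hlow'⟩ := exists_low_set lam hr
    have hlr' : low (r + 1) Y = ∑ i ∈ S', lam i := low_eq hU hU' hY2 hS' hlow'
    have hne : S'.Nonempty := by rw [← Finset.card_pos]; omega
    obtain ⟨k, hk⟩ := hne
    have hc : (S'.erase k).card = r := by rw [Finset.card_erase_of_mem hk]; omega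
    have h1 : sp U (S'.erase k) ∈ Proj d r := hc ▸ sp_mem hU _
    have h2 := low_le (show r ≤ d by omega) hY.1 h1
    have h3 : (sp U (S'.erase k) * Y).trace.re = ∑ i ∈ S'.erase k, lam i := by
      conv_lhs => rw [hY2]
      rw [trace_sp_mul hU]
    rw [h3] at h2
    have h4 := Finset.add_sum_erase S' lam hk
    have := hnn k
    rw [hg, hlr']
    linarith
  have hcomm : sp U S * Y = Y * sp U S := by
    conv_lhs => rw [hY2]
    conv_rhs => rw [hY2]
    rw [sp_mul_diag hU, diag_mul_sp hU]
  have hval : (sp U S * Y).trace.re = low r Y := by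
    rw [hlr]
    conv_lhs => rw [hY2]
    exact trace_sp_mul hU S lam
  refine ⟨sp U S, hm, hcomm, hval, hg0, ?_⟩
  -- positivity facts
  have hYQ : (Y * sp U S).PosSemidef := by
    have : Y * sp U S = U * diagonal (fun i => ((if i ∈ S then lam i else 0 : ℝ) : ℂ)) * Uᴴ := by
      conv_lhs => rw [hY2]
      rw [diag_mul_sp hU]
      congr 3
      ext i; split_ifs <;> simp
    rw [this]
    apply conj_diag_psd
    intro i
    split_ifs
    · exact hnn i
    · exact le_refl _
  have hYP : (Y - (g : ℂ) • (1 - sp U S)).PosSemidef := by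
    have : Y - (g : ℂ) • (1 - sp U S)
        = U * diagonal (fun i => ((if i ∈ S then lam i else lam i - g : ℝ) : ℂ)) * Uᴴ := by
      conv_lhs => rw [hY2, ← conj_one hU']
      unfold sp
      rw [← Matrix.sub_mul, ← Matrix.mul_sub, ← Matrix.smul_mul, ← Matrix.mul_smul,
        ← Matrix.sub_mul, ← Matrix.mul_sub]
      congr 2
      ext i j
      by_cases h : i = j
      · subst h
        by_cases hi : i ∈ S
        · simp [hi]
        · simp [hi]
      · simp [h]
    rw [this]
    apply conj_diag_psd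
    intro i
    split_ifs with hi
    · exact hnn i
    · have := hgap i hi; linarith
  -- termwise estimate
  have hterm : ∀ j, ((L j)ᴴ * sp U S * L j * (1 - sp U S)).trace.re * g
      - ((L j)ᴴ * L j).trace.re * low r Y ≤ (sp U S * dissipatorOf (L j) Y).trace.re := by
    intro j
    rw [trace_Q_dissipatorOf _ _ _ hcomm]
    have hA : ((L j)ᴴ * sp U S * L j).PosSemidef :=
      (Proj.psd hm).conjTranspose_mul_mul_same (L j)
    have h1 := trace_mul_re_nonneg hA hYP
    rw [Matrix.mul_sub, Matrix.trace_sub, Matrix.mul_smul, Matrix.trace_smul] at h1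
    simp only [Complex.sub_re, smul_eq_mul, Complex.mul_re, Complex.ofReal_re, Complex.ofReal_im,
      zero_mul, sub_zero] at h1
    have h2 := trace_mul_re_le (Matrix.posSemidef_conjTranspose_mul_self (L j)) hYQ
    have h3 : (Y * sp U S).trace.re = low r Y := by rw [← hcomm, hval]
    rw [h3] at h2
    linarith
  have hsum := Finset.sum_le_sum (s := Finset.univ) (fun j _ => hterm j)
  rw [Finset.sum_sub_distrib, ← Finset.sum_mul, ← Finset.sum_mul] at hsum
  have h5 : (sp U S * dissipator L Y).trace.re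
      = ∑ j, (sp U S * dissipatorOf (L j) Y).trace.re := by
    unfold dissipator
    rw [Matrix.mul_sum, Matrix.trace_sum, Complex.re_sum]
  rw [h5]
  exact hsum

/-- Version for a general Hermitian matrix and rank one, used for positivity. -/
lemma exists_min_proj_one (L : Fin m → Op d) (hd : 1 ≤ d) {Y : Op d} (hY : Y.IsHermitian) :
    ∃ Q ∈ Proj d 1, Q * Y = Y * Q ∧ (Q * Y).trace.re = low 1 Y ∧
      - (strength L * |low 1 Y|) ≤ (Q * dissipator L Y).trace.re := by
  obtain ⟨U, hU, hU', hY2⟩ := exists_spectral hY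
  set lam := hY.eigenvalues with hlam
  obtain ⟨S, hS, hlow⟩ := exists_low_set lam hd
  have hm : sp U S ∈ Proj d 1 := hS ▸ sp_mem hU S
  have hlr : low 1 Y = ∑ i ∈ S, lam i := low_eq hU hU' hY2 hS hlow
  obtain ⟨k, hk⟩ := Finset.card_eq_one.1 hS
  have hlk : low 1 Y = lam k := by rw [hlr, hk, Finset.sum_singleton]
  have hge : ∀ i, lam k ≤ lam i := by
    intro i
    by_cases hi : i ∈ S
    · rw [hk, Finset.mem_singleton] at hi; rw [hi]
    · exact hlow k (by rw [hk]; simp) i hi
  have hcomm : sp U S * Y = Y * sp U S := by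
    conv_lhs => rw [hY2]
    conv_rhs => rw [hY2]
    rw [sp_mul_diag hU, diag_mul_sp hU]
  have hval : (sp U S * Y).trace.re = low 1 Y := by
    rw [hlr]
    conv_lhs => rw [hY2]
    exact trace_sp_mul hU S lam
  refine ⟨sp U S, hm, hcomm, hval, ?_⟩
  have hYQ : Y * sp U S = (lam k : ℂ) • sp U S := by
    conv_lhs => rw [hY2]
    rw [diag_mul_sp hU]
    unfold sp
    rw [← Matrix.smul_mul, ← Matrix.mul_smul]
    congr 2
    ext i j
    by_cases h : i = j
    · subst h
      by_cases hi : i ∈ S
      · have : i = k := by rw [hk, Finset.mem_singleton] at hi; exact hi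
        subst this
        simp [hi]
      · simp [hi]
    · simp [h]
  have hYm : (Y - (lam k : ℂ) • (1 : Op d)).PosSemidef := by
    have : Y - (lam k : ℂ) • (1 : Op d)
        = U * diagonal (fun i => ((lam i - lam k : ℝ) : ℂ)) * Uᴴ := by
      conv_lhs => rw [hY2, ← conj_one hU']
      rw [← Matrix.smul_mul, ← Matrix.mul_smul,
        ← Matrix.sub_mul, ← Matrix.mul_sub]
      congr 2
      ext i j
      by_cases h : i = j
      · subst h; simp
      · simp [h]
    rw [this]
    apply conj_diag_psd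
    intro i
    have := hge i; linarith
  have hQtr : (sp U S).trace.re = 1 := by rw [hm.2.2]; simp
  have hterm : ∀ j, - (((L j)ᴴ * L j).trace.re * |low 1 Y|)
      ≤ (sp U S * dissipatorOf (L j) Y).trace.re := by
    intro j
    rw [trace_Q_dissipatorOf _ _ _ hcomm, hYQ]
    have hA : ((L j)ᴴ * sp U S * L j).PosSemidef :=
      (Proj.psd hm).conjTranspose_mul_mul_same (L j)
    have h1 := trace_mul_re_nonneg hA hYm
    rw [Matrix.mul_sub, Matrix.trace_sub, Matrix.mul_smul, Matrix.trace_smul, Matrix.mul_one] at h1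
    rw [Matrix.mul_smul, Matrix.trace_smul]
    simp only [Complex.sub_re, smul_eq_mul, Complex.mul_re, Complex.ofReal_re, Complex.ofReal_im,
      zero_mul, sub_zero] at h1 ⊢
    -- bounds for a = tr(A†QA), b = tr(A†A Q)
    have ha0 : 0 ≤ ((L j)ᴴ * sp U S * L j).trace.re := (Complex.le_def.1 hA.trace_nonneg).1
    have ha1 : ((L j)ᴴ * sp U S * L j).trace.re ≤ ((L j)ᴴ * L j).trace.re := by
      have hB : ((L j)ᴴ * (1 - sp U S) * L j).PosSemidef :=
        (Proj.compl_psd hm).conjTranspose_mul_mul_same (L j)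
      have := (Complex.le_def.1 hB.trace_nonneg).1
      rw [Matrix.mul_sub, Matrix.sub_mul, Matrix.trace_sub, Matrix.mul_one] at this
      simp only [Complex.zero_re, Complex.sub_re] at this
      linarith
    have hP := Matrix.posSemidef_conjTranspose_mul_self (L j)
    have hb0 := trace_mul_re_nonneg hP (Proj.psd hm)
    have hb1 := trace_mul_re_le hP (Proj.psd hm)
    rw [hQtr, mul_one] at hb1
    rw [hlk]
    set a := ((L j)ᴴ * sp U S * L j).trace.re
    set b := ((L j)ᴴ * L j * sp U S).trace.re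
    set c := ((L j)ᴴ * L j).trace.re
    have h6 : |a - b| ≤ c := by rw [abs_le]; constructor <;> linarith
    have h7 : |lam k * (a - b)| ≤ |lam k| * c := by
      rw [abs_mul]; exact mul_le_mul_of_nonneg_left h6 (abs_nonneg _)
    have h8 := neg_abs_le (lam k * (a - b))
    nlinarith
  have hsum := Finset.sum_le_sum (s := Finset.univ) (fun j _ => hterm j)
  rw [Finset.sum_neg_distrib, ← Finset.sum_mul] at hsum
  have h5 : (sp U S * dissipator L Y).trace.re
      = ∑ j, (sp U S * dissipatorOf (L j) Y).trace.re := by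
    unfold dissipator
    rw [Matrix.mul_sum, Matrix.trace_sum, Complex.re_sum]
  rw [h5]
  exact hsum

/-- the Hamiltonian part is invisible to commuting projections. -/
lemma trace_comm_zero {Q Y : Op d} (hc : Q * Y = Y * Q) (H : Op d) :
    (Q * (H * Y - Y * H)).trace = 0 := by
  rw [Matrix.mul_sub, Matrix.trace_sub]
  have h1 : (Q * (H * Y)).trace = (H * (Y * Q)).trace := by
    rw [Matrix.trace_mul_comm, Matrix.mul_assoc]
  have h2 : (Q * (Y * H)).trace = (H * (Q * Y)).trace := by
    rw [← Matrix.mul_assoc, Matrix.trace_mul_comm]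
  rw [h1, h2, hc, sub_self]

lemma trace_Q_lindbladian (L : Fin m → Op d) {Q Y : Op d} (hc : Q * Y = Y * Q) (H : Op d) :
    (Q * lindbladian L H Y).trace = (Q * dissipator L Y).trace := by
  unfold lindbladian
  rw [Matrix.mul_add, Matrix.trace_add, Matrix.mul_smul, Matrix.trace_smul,
    trace_comm_zero hc, smul_zero, zero_add]

lemma trace_lindbladian (L : Fin m → Op d) (H Y : Op d) :
    (lindbladian L H Y).trace = 0 := by
  have h0 : (lindbladian L H Y).trace = (1 * lindbladian L H Y).trace := by rw [Matrix.one_mul]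
  rw [h0, trace_Q_lindbladian L (by rw [Matrix.one_mul, Matrix.mul_one]) H, Matrix.one_mul]
  unfold dissipator
  rw [Matrix.trace_sum]
  apply Finset.sum_eq_zero
  intro j _
  unfold dissipatorOf
  rw [Matrix.trace_sub, Matrix.trace_smul, Matrix.trace_add]
  have h1 : (L j * Y * (L j)ᴴ).trace = ((L j)ᴴ * L j * Y).trace := by
    rw [Matrix.trace_mul_comm, ← Matrix.mul_assoc]
  have h2 : (Y * ((L j)ᴴ * L j)).trace = ((L j)ᴴ * L j * Y).trace := Matrix.trace_mul_comm _ _
  rw [h1, h2]
  simp only [smul_eq_mul]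
  ring

/-- leakage is nonnegative and vanishes only for invariant complements. -/
lemma leak_term (A : Op d) {r : ℕ} {Q : Op d} (hQ : Q ∈ Proj d r) :
    (Aᴴ * Q * A * (1 - Q)).trace = ((Q * A * (1 - Q))ᴴ * (Q * A * (1 - Q))).trace := by
  have hP1 : (1 - Q)ᴴ = 1 - Q := by rw [Matrix.conjTranspose_sub, hQ.1, Matrix.conjTranspose_one]
  have hP2 : (1 - Q) * (1 - Q) = 1 - Q := by
    rw [Matrix.sub_mul, Matrix.mul_sub, Matrix.mul_sub, hQ.2.1]; simp
  simp only [Matrix.conjTranspose_mul, hP1, hQ.1]
  calc (Aᴴ * Q * A * (1 - Q)).trace = (Aᴴ * (Q * Q) * A * ((1 - Q) * (1 - Q))).trace := by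
        rw [hP2, hQ.2.1]
    _ = ((Aᴴ * Q * (Q * A * (1 - Q))) * (1 - Q)).trace := by simp only [Matrix.mul_assoc]
    _ = ((1 - Q) * (Aᴴ * Q * (Q * A * (1 - Q)))).trace := Matrix.trace_mul_comm _ _
    _ = _ := by simp only [Matrix.mul_assoc]

lemma leak_pos (L : Fin m → Op d) (hL : Algebra.adjoin ℂ (Set.range L) = ⊤) {r : ℕ}
    (hr0 : r ≠ 0) (hrd : r ≠ d) {Q : Op d} (hQ : Q ∈ Proj d r) : 0 < leak L Q := by
  have hnn : ∀ j, 0 ≤ ((L j)ᴴ * Q * L j * (1 - Q)).trace.re := by
    intro j
    rw [leak_term (L j) hQ]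
    exact (Complex.le_def.1 (Matrix.posSemidef_conjTranspose_mul_self _).trace_nonneg).1
  rcases (Finset.sum_nonneg (fun j _ => hnn j) : 0 ≤ leak L Q).lt_or_eq with h | h
  · exact h
  · exfalso
    have hz := (Finset.sum_eq_zero_iff_of_nonneg (fun j _ => hnn j)).1 h.symm
    have hz2 : ∀ j, Q * L j * (1 - Q) = 0 := by
      intro j
      rw [← Matrix.trace_conjTranspose_mul_self_eq_zero_iff]
      have h1 := hz j (Finset.mem_univ j)
      rw [leak_term (L j) hQ] at h1
      have h2 := (Complex.le_def.1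
        (Matrix.posSemidef_conjTranspose_mul_self (Q * L j * (1 - Q))).trace_nonneg).2
      apply Complex.ext
      · exact h1
      · simpa using h2.symm
    -- all matrices satisfy the same identity
    have hall : ∀ A ∈ Algebra.adjoin ℂ (Set.range L), Q * A * (1 - Q) = 0 := by
      intro A hA
      induction hA using Algebra.adjoin_induction with
      | mem x hx => obtain ⟨j, rfl⟩ := hx; exact hz2 j
      | algebraMap c =>
        rw [Algebra.algebraMap_eq_smul_one, Matrix.mul_smul, Matrix.smul_mul, Matrix.mul_one,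
          Matrix.mul_sub, Matrix.mul_one, hQ.2.1, sub_self, smul_zero]
      | add x y _ _ hx hy => rw [Matrix.mul_add, Matrix.add_mul, hx, hy, add_zero]
      | mul x y _ _ hx hy =>
        have : Q * (x * y) * (1 - Q) = (Q * x * Q) * y * (1 - Q) + (Q * x * (1 - Q)) * y * (1 - Q) := by
          rw [← Matrix.add_mul, ← Matrix.add_mul, ← Matrix.mul_add]
          simp only [add_sub_cancel, Matrix.mul_one, Matrix.mul_assoc]
        rw [this, hx]
        calc Q * x * Q * y * (1 - Q) + 0 * y * (1 - Q) = Q * x * (Q * y * (1 - Q)) := by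
              simp only [Matrix.zero_mul, add_zero, Matrix.mul_assoc]
          _ = 0 := by rw [hy, Matrix.mul_zero]
    have hall2 : ∀ A : Op d, Q * A * (1 - Q) = 0 := fun A => hall A (by rw [hL]; trivial)
    have hQ0 : Q ≠ 0 := by
      intro h0
      have := hQ.2.2
      rw [h0, Matrix.trace_zero] at this
      exact hr0 (by exact_mod_cast this.symm)
    have hP0 : (1 - Q) ≠ 0 := by
      intro h0
      have h1 : Q = 1 := (sub_eq_zero.1 h0).symm
      have := hQ.2.2
      rw [h1, Matrix.trace_one, Fintype.card_fin] at this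
      exact hrd (by exact_mod_cast this.symm)
    obtain ⟨i, j, hij⟩ : ∃ i j, Q i j ≠ 0 := by
      by_contra hcon
      push Not at hcon
      exact hQ0 (by ext i j; simp [hcon i j])
    obtain ⟨k, l, hkl⟩ : ∃ k l, (1 - Q) k l ≠ 0 := by
      by_contra hcon
      push Not at hcon
      exact hP0 (by ext i j; rw [hcon i j]; rfl)
    have h1 := congrFun (congrFun (hall2 (Matrix.single j k (1 : ℂ))) i) l
    rw [Matrix.zero_apply] at h1
    have h2 : (Q * (Matrix.single j k (1 : ℂ)) * (1 - Q) : Op d) i l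
        = Q i j * (1 - Q : Op d) k l := by
      rw [Matrix.mul_assoc, Matrix.mul_apply]
      rw [Finset.sum_eq_single j]
      · congr 1
        rw [Matrix.single_mul_apply_same]; simp
      · intro b _ hb
        rw [Matrix.single_mul_apply_of_ne _ _ _ _ _ hb, mul_zero]
      · intro h; exact absurd (Finset.mem_univ j) h
    rw [h2] at h1
    rcases mul_eq_zero.1 h1 with h3 | h3
    · exact hij h3
    · exact hkl h3

end Pool.Agent.Helper57.Lindblad
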