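import Mathlib

/-!
One-dimensional fencing lemmas (MP_4e5d1f_mp).
-/

namespace Pool.Agent.Helper57.Lindblad

open Set Filter Topology

/-- General fencing lemma: `g` has lower slope at least `ψ` up to a quadratic error. -/
lemma fence {g ψ β β' : ℝ → ℝ} {a b K : ℝ}
    (hg : ContinuousOn g (Icc a b)) (hψ : ContinuousOn ψ (Icc a b))
    (hstep : ∀ x z, a ≤ x → x ≤ z → z ≤ b → (z - x) * ψ z - K * (z - x) ^ 2 ≤ g z - g x)
    (hβ : ∀ x, HasDerivAt β (β' x) x) (ha : β a ≤ g a)
    (bound : ∀ x ∈ Ico a b, g x = β x → β' x < ψ x) : ∀ x ∈ Icc a b, β x ≤ g x := by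
  have key := image_le_of_liminf_slope_right_lt_deriv_boundary (f := fun x => - g x)
    (f' := fun x => - ψ x) (B := fun x => - β x) (B' := fun x => - β' x) (a := a) (b := b)
    hg.neg ?_ (by simpa using ha) (fun x => (hβ x).neg) ?_
  · intro x hx
    have := key hx
    simpa using this
  · intro x hx r hr
    have hr' : 0 < r + ψ x := by linarith
    apply Filter.Eventually.frequently
    have hIoo : Ioo x b ∈ 𝓝[>] x := Ioo_mem_nhdsGT hx.2
    -- the error term tends to zero
    have hcψ : Tendsto ψ (𝓝[>] x) (𝓝 (ψ x)) := by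
      have h1 : Tendsto ψ (𝓝[Icc a b] x) (𝓝 (ψ x)) := hψ x ⟨hx.1, hx.2.le⟩
      refine h1.mono_left ?_
      apply nhdsWithin_le_of_mem
      exact Icc_mem_nhdsGT_of_mem hx
    have hct : Tendsto (fun z => - ψ z + K * (z - x)) (𝓝[>] x) (𝓝 (- ψ x + K * (x - x))) := by
      apply (hcψ.neg).add
      apply Tendsto.mono_left _ nhdsWithin_le_nhds
      have : Continuous fun z : ℝ => K * (z - x) := by fun_prop
      exact this.tendsto x
    have hlt : - ψ x + K * (x - x) < r := by simpa using hr
    have hev := hct.eventually_lt_const hlt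
    filter_upwards [hev, hIoo] with z hz hzI
    have hzx : 0 < z - x := sub_pos.2 hzI.1
    have h1 := hstep x z hx.1 hzI.1.le hzI.2.le
    rw [slope_def_field, div_lt_iff₀ hzx]
    nlinarith
  · intro x hx h
    have := bound x hx (by simpa using h)
    linarith

/-- If `g` starts nonnegative and decreases at rate at most `C |g|`, it stays nonnegative. -/
lemma fence_nonneg {g : ℝ → ℝ} {a b K C : ℝ}
    (hg : ContinuousOn g (Icc a b))
    (hstep : ∀ x z, a ≤ x → x ≤ z → z ≤ b →
      (z - x) * (-(C * |g z|)) - K * (z - x) ^ 2 ≤ g z - g x)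
    (ha : 0 ≤ g a) : ∀ x ∈ Icc a b, 0 ≤ g x := by
  have key : ∀ η : ℝ, 0 < η → ∀ x ∈ Icc a b, -(η * Real.exp ((C + 1) * (x - a))) ≤ g x := by
    intro η hη
    apply fence (ψ := fun z => -(C * |g z|)) (K := K)
      (β' := fun x => -(η * (Real.exp ((C + 1) * (x - a)) * (C + 1))))
    · exact hg
    · exact (continuousOn_const.mul hg.abs).neg
    · exact hstep
    · intro x
      apply HasDerivAt.neg
      apply HasDerivAt.const_mul
      have h1 : HasDerivAt (fun x : ℝ => (C + 1) * (x - a)) (C + 1) x := by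
        simpa using ((hasDerivAt_id x).sub_const a).const_mul (C + 1)
      exact h1.exp
    · have : 0 < η * Real.exp ((C + 1) * (a - a)) := by positivity
      linarith
    · intro x _ hgx
      rw [hgx, abs_neg, abs_of_pos (by positivity)]
      have : 0 < η * Real.exp ((C + 1) * (x - a)) := by positivity
      nlinarith
  intro x hx
  by_contra hneg
  push Not at hneg
  have hE : 0 < Real.exp ((C + 1) * (x - a)) := Real.exp_pos _
  have h1 := key (-(g x) / (2 * Real.exp ((C + 1) * (x - a)))) (by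
    apply div_pos (by linarith) (by positivity)) x hx
  have h2 : -(g x) / (2 * Real.exp ((C + 1) * (x - a))) * Real.exp ((C + 1) * (x - a))
      = -(g x) / 2 := by
    field_simp
  rw [h2] at h1
  linarith

/-- Growth lemma. -/
lemma fence_pow {g h : ℝ → ℝ} {a b K C κ A : ℝ} (n : ℕ) (hb : b ≤ a + 1)
    (hC : 0 ≤ C) (hκ : 0 < κ) (hA : 0 ≤ A)
    (hg : ContinuousOn g (Icc a b)) (hh : ContinuousOn h (Icc a b))
    (hstep : ∀ x z, a ≤ x → x ≤ z → z ≤ b →
      (z - x) * (κ * (h z - g z) - C * g z) - K * (z - x) ^ 2 ≤ g z - g x)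
    (hlow : ∀ x ∈ Icc a b, A * (x - a) ^ n ≤ h x)
    (ha : 0 ≤ g a) :
    ∀ x ∈ Icc a b, κ * A / (n + 1 + κ + C) * (x - a) ^ (n + 1) ≤ g x := by
  set A' := κ * A / (n + 1 + κ + C) with hA'
  have hden : 0 < (n : ℝ) + 1 + κ + C := by positivity
  have hA'0 : 0 ≤ A' := by positivity
  have hA'e : (n + 1 + κ + C) * A' = κ * A := by
    rw [hA']; field_simp
  have key : ∀ η : ℝ, 0 < η → ∀ x ∈ Icc a b, A' * (x - a) ^ (n + 1) - η ≤ g x := by
    intro η hη
    apply fence (ψ := fun z => κ * (h z - g z) - C * g z) (K := K)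
      (β' := fun x => A' * ((n + 1) * (x - a) ^ n))
    · exact hg
    · exact (continuousOn_const.mul (hh.sub hg)).sub (continuousOn_const.mul hg)
    · exact hstep
    · intro x
      apply HasDerivAt.sub_const
      apply HasDerivAt.const_mul
      have h1 : HasDerivAt (fun x : ℝ => x - a) 1 x := (hasDerivAt_id x).sub_const a
      have h2 := h1.fun_pow (n + 1)
      simpa using h2
    · simp; linarith
    · intro x hx hgx
      rw [hgx]
      have hx1 : 0 ≤ x - a := by linarith [hx.1]
      have hx2 : x - a ≤ 1 := by linarith [hx.2]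
      have h1 := hlow x ⟨hx.1, hx.2.le⟩
      have h2 : (x - a) ^ (n + 1) ≤ (x - a) ^ n := by
        rw [pow_succ]
        have : 0 ≤ (x - a) ^ n := by positivity
        nlinarith
      have h3 : 0 ≤ (x - a) ^ n := by positivity
      have h4 : κ * (A * (x - a) ^ n) ≤ κ * h x := mul_le_mul_of_nonneg_left h1 hκ.le
      have h5 : (κ + C) * A' * (x - a) ^ (n + 1) ≤ (κ + C) * A' * (x - a) ^ n :=
        mul_le_mul_of_nonneg_left h2 (by positivity)
      have h6 : 0 < (κ + C) * η := by positivity
      have h7 : A' * ((n + 1) * (x - a) ^ n) + (κ + C) * A' * (x - a) ^ n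
          = κ * (A * (x - a) ^ n) := by
        have : A' * ((n + 1) * (x - a) ^ n) + (κ + C) * A' * (x - a) ^ n
          = ((n + 1 + κ + C) * A') * (x - a) ^ n := by ring
        rw [this, hA'e]; ring
      nlinarith
  intro x hx
  by_contra hneg
  push Not at hneg
  have h1 := key ((A' * (x - a) ^ (n + 1) - g x) / 2) (by linarith) x hx
  linarith

end Pool.Agent.Helper57.Lindblad
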