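import Mathlib
import Pool.Agent.Helper57.Lindblad.Dissip

/-!
Compactness: a uniform lower bound for the leakage (MP_4e5d1f_mp).
-/

namespace Pool.Agent.Helper57.Lindblad

open scoped Matrix ComplexOrder
open Matrix

variable {d m : ℕ}

lemma proj_entry_le {r : ℕ} {Q : Op d} (hQ : Q ∈ Proj d r) (i j : Fin d) : ‖Q i j‖ ≤ 1 := by
  have h1 := proj_diag hQ.1 hQ.2.1 i
  have h3 : Q i i = ∑ k, Q i k * Q k i := by
    conv_lhs => rw [← hQ.2.1]
    rfl
  have h4 : ∀ k, Q k i = star (Q i k) := by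
    intro k
    conv_lhs => rw [← hQ.1]
    rfl
  have h6 : (Q i i).re = ∑ k, ‖Q i k‖ ^ 2 := by
    conv_lhs => rw [h3]
    rw [Complex.re_sum]
    apply Finset.sum_congr rfl
    intro k _
    rw [h4 k]
    have := Complex.mul_conj (Q i k)
    rw [Complex.normSq_eq_norm_sq] at this
    have h := congrArg Complex.re this
    rw [Complex.ofReal_re] at h
    exact h
  have h9 : ‖Q i j‖ ^ 2 ≤ ∑ k, ‖Q i k‖ ^ 2 :=
    Finset.single_le_sum (f := fun k => ‖Q i k‖ ^ 2) (fun k _ => by positivity)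
      (Finset.mem_univ j)
  rw [← h6] at h9
  have h10 : ‖Q i j‖ ^ 2 ≤ 1 := h9.trans h1.2.1
  exact (sq_le_one_iff₀ (norm_nonneg _)).1 h10

lemma proj_isCompact (d r : ℕ) : IsCompact (Proj d r) := by
  have hc : IsCompact (Set.pi Set.univ (fun _ : Fin d => Set.pi Set.univ
      (fun _ : Fin d => Metric.closedBall (0 : ℂ) 1))) := by
    apply isCompact_univ_pi
    intro i
    apply isCompact_univ_pi
    intro j
    exact isCompact_closedBall 0 1
  have hcl : IsClosed (Proj d r) := by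
    have h1 : IsClosed {Q : Op d | Qᴴ = Q} := by
      apply isClosed_eq <;> fun_prop
    have h2 : IsClosed {Q : Op d | Q * Q = Q} := by
      apply isClosed_eq <;> fun_prop
    have h3 : IsClosed {Q : Op d | Q.trace = (r : ℂ)} := by
      apply isClosed_eq <;> fun_prop
    exact h1.inter (h2.inter h3)
  refine hc.of_isClosed_subset hcl ?_
  intro Q hQ i _ j _
  rw [Metric.mem_closedBall, dist_zero_right]
  exact proj_entry_le hQ i j

lemma leak_continuous (L : Fin m → Op d) : Continuous (leak L) := by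
  unfold leak
  fun_prop

lemma exists_kappa (L : Fin m → Op d) (hL : Algebra.adjoin ℂ (Set.range L) = ⊤) :
    ∃ κ : ℝ, 0 < κ ∧ ∀ r, r ≠ 0 → r < d → ∀ Q ∈ Proj d r, κ ≤ leak L Q := by
  have hr : ∀ r, ∃ κ : ℝ, 0 < κ ∧ (r ≠ 0 → r < d → ∀ Q ∈ Proj d r, κ ≤ leak L Q) := by
    intro r
    by_cases h0 : r = 0
    · exact ⟨1, one_pos, fun h => absurd h0 h⟩
    by_cases hd : r < d
    · rcases (Proj d r).eq_empty_or_nonempty with he | hne
      · refine ⟨1, one_pos, fun _ _ Q hQ => ?_⟩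
        rw [he] at hQ; exact absurd hQ (Set.notMem_empty _)
      · obtain ⟨Q₀, hQ₀, hmin⟩ := (proj_isCompact d r).exists_isMinOn hne
          (leak_continuous L).continuousOn
        exact ⟨leak L Q₀, leak_pos L hL h0 hd.ne hQ₀, fun _ _ Q hQ => hmin hQ⟩
    · exact ⟨1, one_pos, fun _ h => absurd h hd⟩
  choose κ hκ using hr
  rcases Nat.eq_zero_or_pos d with hd0 | hd0
  · exact ⟨1, one_pos, fun r _ h => by omega⟩
  · have hne : (Finset.range d).Nonempty := ⟨0, by simpa using hd0⟩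
    obtain ⟨r₀, _, hmin⟩ := Finset.exists_min_image (Finset.range d) κ hne
    refine ⟨κ r₀, (hκ r₀).1, fun r hr0 hrd Q hQ => ?_⟩
    exact (hmin r (Finset.mem_range.2 hrd)).trans ((hκ r).2 hr0 hrd Q hQ)

end Pool.Agent.Helper57.Lindblad
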