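import Mathlib
import Pool.Agent.Helper57.Lindblad.Kappa

/-!
The entrywise `ℓ¹` norm and bounds for the Lindbladian (MP_4e5d1f_mp).
-/

namespace Pool.Agent.Helper57.Lindblad

open scoped Matrix ComplexOrder
open Matrix

variable {d m : ℕ}

/-- entrywise `ℓ¹` norm. -/
noncomputable def nrm (A : Op d) : ℝ := ∑ i, ∑ j, ‖A i j‖

lemma nrm_nonneg (A : Op d) : 0 ≤ nrm A :=
  Finset.sum_nonneg fun _ _ => Finset.sum_nonneg fun _ _ => norm_nonneg _

lemma entry_le_nrm (A : Op d) (i j : Fin d) : ‖A i j‖ ≤ nrm A := by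
  have h1 : ‖A i j‖ ≤ ∑ j, ‖A i j‖ :=
    Finset.single_le_sum (f := fun j => ‖A i j‖) (fun _ _ => norm_nonneg _) (Finset.mem_univ j)
  have h2 : ∑ j, ‖A i j‖ ≤ nrm A :=
    Finset.single_le_sum (f := fun i => ∑ j, ‖A i j‖)
      (fun _ _ => Finset.sum_nonneg fun _ _ => norm_nonneg _) (Finset.mem_univ i)
  exact h1.trans h2

lemma eq_zero_of_nrm {A : Op d} (h : nrm A ≤ 0) : A = 0 := by
  ext i j
  have := (entry_le_nrm A i j).trans h
  simpa using le_antisymm this (norm_nonneg _)

@[simp] lemma nrm_zero : nrm (0 : Op d) = 0 := by simp [nrm]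

lemma nrm_neg (A : Op d) : nrm (-A) = nrm A := by simp [nrm]

lemma nrm_add_le (A B : Op d) : nrm (A + B) ≤ nrm A + nrm B := by
  unfold nrm
  rw [← Finset.sum_add_distrib]
  apply Finset.sum_le_sum
  intro i _
  rw [← Finset.sum_add_distrib]
  apply Finset.sum_le_sum
  intro j _
  exact norm_add_le _ _

lemma nrm_sub_le (A B : Op d) : nrm (A - B) ≤ nrm A + nrm B := by
  rw [sub_eq_add_neg, ← nrm_neg B]
  exact nrm_add_le _ _

lemma nrm_sub_rev (A B : Op d) : nrm (A - B) = nrm (B - A) := by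
  rw [← nrm_neg, neg_sub]

lemma nrm_smul (c : ℂ) (A : Op d) : nrm (c • A) = ‖c‖ * nrm A := by
  unfold nrm
  simp [Finset.mul_sum]

lemma nrm_conjTranspose (A : Op d) : nrm Aᴴ = nrm A := by
  unfold nrm
  rw [Finset.sum_comm]
  simp [Matrix.conjTranspose_apply]

lemma nrm_mul_le (A B : Op d) : nrm (A * B) ≤ nrm A * nrm B := by
  calc nrm (A * B) ≤ ∑ i, ∑ j, ∑ k, ‖A i k‖ * ‖B k j‖ := by
        apply Finset.sum_le_sum; intro i _
        apply Finset.sum_le_sum; intro j _
        rw [Matrix.mul_apply]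
        refine (norm_sum_le _ _).trans ?_
        apply Finset.sum_le_sum; intro k _
        rw [norm_mul]
    _ = ∑ i, ∑ k, ‖A i k‖ * ∑ j, ‖B k j‖ := by
        apply Finset.sum_congr rfl; intro i _
        rw [Finset.sum_comm]
        apply Finset.sum_congr rfl; intro k _
        rw [Finset.mul_sum]
    _ ≤ ∑ i, ∑ k, ‖A i k‖ * nrm B := by
        apply Finset.sum_le_sum; intro i _
        apply Finset.sum_le_sum; intro k _
        apply mul_le_mul_of_nonneg_left _ (norm_nonneg _)
        exact Finset.single_le_sum (f := fun k => ∑ j, ‖B k j‖)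
          (fun _ _ => Finset.sum_nonneg fun _ _ => norm_nonneg _) (Finset.mem_univ k)
    _ = nrm A * nrm B := by
        unfold nrm
        rw [Finset.sum_mul]
        apply Finset.sum_congr rfl; intro i _
        rw [Finset.sum_mul]

lemma nrm_sum_le {ι : Type*} (s : Finset ι) (f : ι → Op d) :
    nrm (∑ i ∈ s, f i) ≤ ∑ i ∈ s, nrm (f i) := by
  classical
  induction s using Finset.induction_on with
  | empty => simp
  | insert a s ha ih =>
    rw [Finset.sum_insert ha, Finset.sum_insert ha]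
    exact (nrm_add_le _ _).trans (by linarith)

lemma abs_trace_mul_le {r : ℕ} {Q : Op d} (hQ : Q ∈ Proj d r) (M : Op d) :
    |(Q * M).trace.re| ≤ nrm M := by
  have h1 : (Q * M).trace = ∑ i, ∑ k, Q i k * M k i := by
    rw [Matrix.trace]
    apply Finset.sum_congr rfl; intro i _
    rw [Matrix.diag_apply, Matrix.mul_apply]
  calc |(Q * M).trace.re| ≤ ‖(Q * M).trace‖ := Complex.abs_re_le_norm _
    _ ≤ ∑ i, ∑ k, ‖M k i‖ := by
        rw [h1]
        refine (norm_sum_le _ _).trans ?_
        apply Finset.sum_le_sum; intro i _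
        refine (norm_sum_le _ _).trans ?_
        apply Finset.sum_le_sum; intro k _
        rw [norm_mul]
        have := proj_entry_le hQ i k
        have h2 := norm_nonneg (M k i)
        nlinarith
    _ = nrm M := by unfold nrm; rw [Finset.sum_comm]

/-- a bound for the dissipator. -/
noncomputable def dconst (L : Fin m → Op d) : ℝ := ∑ j, 2 * nrm (L j) ^ 2

lemma dconst_nonneg (L : Fin m → Op d) : 0 ≤ dconst L :=
  Finset.sum_nonneg fun _ _ => by positivity

lemma nrm_dissipator_le (L : Fin m → Op d) (Y : Op d) :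
    nrm (dissipator L Y) ≤ dconst L * nrm Y := by
  unfold dissipator dconst
  refine (nrm_sum_le _ _).trans ?_
  rw [Finset.sum_mul]
  apply Finset.sum_le_sum
  intro j _
  unfold dissipatorOf
  have hA : nrm (L j)ᴴ = nrm (L j) := nrm_conjTranspose _
  have n0 := nrm_nonneg (L j)
  have nY := nrm_nonneg Y
  have h1 : nrm (L j * Y * (L j)ᴴ) ≤ nrm (L j) ^ 2 * nrm Y := by
    calc nrm (L j * Y * (L j)ᴴ) ≤ nrm (L j * Y) * nrm (L j)ᴴ := nrm_mul_le _ _
      _ ≤ (nrm (L j) * nrm Y) * nrm (L j)ᴴ := by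
          apply mul_le_mul_of_nonneg_right (nrm_mul_le _ _) (nrm_nonneg _)
      _ = _ := by rw [hA]; ring
  have h2 : nrm ((L j)ᴴ * L j * Y) ≤ nrm (L j) ^ 2 * nrm Y := by
    calc nrm ((L j)ᴴ * L j * Y) ≤ nrm ((L j)ᴴ * L j) * nrm Y := nrm_mul_le _ _
      _ ≤ (nrm (L j)ᴴ * nrm (L j)) * nrm Y := by
          apply mul_le_mul_of_nonneg_right (nrm_mul_le _ _) (nrm_nonneg _)
      _ = _ := by rw [hA]; ring
  have h3 : nrm (Y * ((L j)ᴴ * L j)) ≤ nrm (L j) ^ 2 * nrm Y := by
    calc nrm (Y * ((L j)ᴴ * L j)) ≤ nrm Y * nrm ((L j)ᴴ * L j) := nrm_mul_le _ _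
      _ ≤ nrm Y * (nrm (L j)ᴴ * nrm (L j)) := by
          apply mul_le_mul_of_nonneg_left (nrm_mul_le _ _) (nrm_nonneg _)
      _ = _ := by rw [hA]; ring
  calc _ ≤ nrm (L j * Y * (L j)ᴴ)
        + nrm ((1 / 2 : ℂ) • ((L j)ᴴ * L j * Y + Y * ((L j)ᴴ * L j))) := nrm_sub_le _ _
    _ ≤ nrm (L j) ^ 2 * nrm Y + (1 / 2) * (nrm ((L j)ᴴ * L j * Y) + nrm (Y * ((L j)ᴴ * L j))) := by
        rw [nrm_smul]
        have h4 : ‖(1 / 2 : ℂ)‖ = 1 / 2 := by norm_num
        rw [h4]
        have := nrm_add_le ((L j)ᴴ * L j * Y) (Y * ((L j)ᴴ * L j))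
        linarith
    _ ≤ 2 * nrm (L j) ^ 2 * nrm Y := by linarith

lemma nrm_lindbladian_le (L : Fin m → Op d) (H Y : Op d) :
    nrm (lindbladian L H Y) ≤ (2 * nrm H + dconst L) * nrm Y := by
  unfold lindbladian
  have h1 : nrm ((-Complex.I) • (H * Y - Y * H)) ≤ 2 * nrm H * nrm Y := by
    rw [nrm_smul]
    have : ‖-Complex.I‖ = 1 := by simp
    rw [this, one_mul]
    calc nrm (H * Y - Y * H) ≤ nrm (H * Y) + nrm (Y * H) := nrm_sub_le _ _
      _ ≤ nrm H * nrm Y + nrm Y * nrm H := add_le_add (nrm_mul_le _ _) (nrm_mul_le _ _)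
      _ = _ := by ring
  calc _ ≤ nrm ((-Complex.I) • (H * Y - Y * H)) + nrm (dissipator L Y) := nrm_add_le _ _
    _ ≤ _ := by have := nrm_dissipator_le L Y; linarith

lemma dissipator_sub (L : Fin m → Op d) (Y Z : Op d) :
    dissipator L (Y - Z) = dissipator L Y - dissipator L Z := by
  unfold dissipator dissipatorOf
  rw [← Finset.sum_sub_distrib]
  apply Finset.sum_congr rfl
  intro j _
  simp only [Matrix.mul_sub, Matrix.sub_mul, smul_add, smul_sub]
  abel

lemma dissipator_add (L : Fin m → Op d) (Y Z : Op d) :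
    dissipator L (Y + Z) = dissipator L Y + dissipator L Z := by
  unfold dissipator dissipatorOf
  rw [← Finset.sum_add_distrib]
  apply Finset.sum_congr rfl
  intro j _
  simp only [Matrix.mul_add, Matrix.add_mul, smul_add]
  abel

lemma dissipator_smul (L : Fin m → Op d) (c : ℂ) (Y : Op d) :
    dissipator L (c • Y) = c • dissipator L Y := by
  unfold dissipator dissipatorOf
  rw [Finset.smul_sum]
  apply Finset.sum_congr rfl
  intro j _
  simp only [Matrix.mul_smul, Matrix.smul_mul, smul_sub, smul_add, smul_comm c (1 / 2 : ℂ)]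

lemma dissipator_conjTranspose (L : Fin m → Op d) (Y : Op d) :
    (dissipator L Y)ᴴ = dissipator L Yᴴ := by
  unfold dissipator dissipatorOf
  rw [Matrix.conjTranspose_sum]
  apply Finset.sum_congr rfl
  intro j _
  simp only [Matrix.conjTranspose_sub, Matrix.conjTranspose_mul, Matrix.conjTranspose_smul,
    Matrix.conjTranspose_add, Matrix.conjTranspose_conjTranspose]
  have h : star (1 / 2 : ℂ) = 1 / 2 := by
    rw [show (1 / 2 : ℂ) = ((1 / 2 : ℝ) : ℂ) by push_cast; rfl]
    exact Complex.conj_ofReal _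
  rw [h]
  congr 1
  · simp only [Matrix.mul_assoc]
  · congr 1
    rw [add_comm]

lemma lindbladian_sub (L : Fin m → Op d) (H Y Z : Op d) :
    lindbladian L H (Y - Z) = lindbladian L H Y - lindbladian L H Z := by
  unfold lindbladian
  rw [dissipator_sub]
  simp only [Matrix.mul_sub, Matrix.sub_mul, smul_sub]
  abel

lemma lindbladian_add (L : Fin m → Op d) (H Y Z : Op d) :
    lindbladian L H (Y + Z) = lindbladian L H Y + lindbladian L H Z := by
  unfold lindbladian
  rw [dissipator_add]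
  simp only [Matrix.mul_add, Matrix.add_mul, smul_sub, smul_add]
  abel

lemma lindbladian_smul (L : Fin m → Op d) (H : Op d) (c : ℂ) (Y : Op d) :
    lindbladian L H (c • Y) = c • lindbladian L H Y := by
  unfold lindbladian
  rw [dissipator_smul]
  simp only [Matrix.mul_smul, Matrix.smul_mul, smul_sub, smul_add, smul_comm c (-Complex.I)]

lemma lindbladian_conjTranspose (L : Fin m → Op d) {H : Op d} (hH : H.IsHermitian) (Y : Op d) :
    (lindbladian L H Y)ᴴ = lindbladian L H Yᴴ := by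
  unfold lindbladian
  rw [Matrix.conjTranspose_add, dissipator_conjTranspose, Matrix.conjTranspose_smul,
    Matrix.conjTranspose_sub, Matrix.conjTranspose_mul, Matrix.conjTranspose_mul, hH.eq]
  congr 1
  have : star (-Complex.I) = Complex.I := by simp
  rw [this, neg_smul, ← smul_neg, neg_sub]

lemma dissipator_continuous (L : Fin m → Op d) : Continuous (dissipator L) := by
  unfold dissipator dissipatorOf
  fun_prop

end Pool.Agent.Helper57.Lindblad
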