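import Mathlib
import Pool.Agent.Helper57.Lindblad.Norm
import Pool.Agent.Helper57.Lindblad.Fence

/-!
Solutions of the integrated master equation (MP_4e5d1f_mp).
-/

namespace Pool.Agent.Helper57.Lindblad

open scoped Matrix ComplexOrder
open Matrix MeasureTheory Set

variable {d m : ℕ}

/-- `Y` solves the integrated master equation on `[s,∞)`. -/
structure IsSol (L : Fin m → Op d) (H : ℝ → Op d) (s : ℝ) (Y : ℝ → Op d) : Prop where
  cont : ∀ i j, ContinuousOn (fun t => Y t i j) (Ici s)
  eq : ∀ t, s ≤ t → ∀ i j,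
    Y t i j = Y s i j + ∫ r in s..t, lindbladian L (H r) (Y r) i j

lemma IsSol.continuousOn {L : Fin m → Op d} {H : ℝ → Op d} {s : ℝ} {Y : ℝ → Op d}
    (hY : IsSol L H s Y) : ContinuousOn Y (Ici s) := by
  rw [continuousOn_iff_continuous_domRestrict]
  apply continuous_matrix
  intro i j
  exact continuousOn_iff_continuous_domRestrict.1 (hY.cont i j)

lemma entry_continuousOn {Y : ℝ → Op d} {S : Set ℝ} (hY : ContinuousOn Y S) (i j : Fin d) :
    ContinuousOn (fun r => Y r i j) S := by
  have h : Continuous (fun A : Op d => A i j) := continuous_id.matrix_elem i j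
  exact h.comp_continuousOn hY

lemma ii_sum {ι : Type*} (s : Finset ι) {f : ι → ℝ → ℂ} {a b : ℝ}
    (h : ∀ i ∈ s, IntervalIntegrable (f i) volume a b) :
    IntervalIntegrable (fun r => ∑ i ∈ s, f i r) volume a b := by
  have h1 := IntervalIntegrable.sum (μ := volume) (a := a) (b := b) s h
  have e : (fun r => ∑ i ∈ s, f i r) = ∑ i ∈ s, f i := by
    funext r; rw [Finset.sum_apply]
  rw [e]; exact h1

lemma lindbladian_entry (L : Fin m → Op d) (H Y : Op d) (i j : Fin d) :
    lindbladian L H Y i j
      = (-Complex.I) * ((∑ k, H i k * Y k j) - ∑ k, Y i k * H k j) + dissipator L Y i j := by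
  unfold lindbladian
  rw [Matrix.add_apply, Matrix.smul_apply, Matrix.sub_apply, Matrix.mul_apply, Matrix.mul_apply]
  rfl

lemma drive_entry_integrable {H : ℝ → Op d} (hH : IsDrive H) {a b : ℝ} (ha : 0 ≤ a)
    (hab : a ≤ b) (i j : Fin d) : IntervalIntegrable (fun r => H r i j) volume a b := by
  rw [intervalIntegrable_iff_integrableOn_Ioc_of_le hab]
  obtain ⟨M, hM⟩ := hH.locallyBounded b
  apply Measure.integrableOn_of_bounded (M := M)
  · simp
  · exact (hH.measurable i j).aestronglyMeasurable
  · rw [ae_restrict_iff' measurableSet_Ioc]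
    apply Filter.Eventually.of_forall
    intro r hr
    exact hM r (ha.trans hr.1.le) hr.2 i j

lemma integrable_lindbladian (L : Fin m → Op d) {H : ℝ → Op d} (hH : IsDrive H) {a b : ℝ}
    (ha : 0 ≤ a) (hab : a ≤ b) {Y : ℝ → Op d} (hY : ContinuousOn Y (Icc a b)) (i j : Fin d) :
    IntervalIntegrable (fun r => lindbladian L (H r) (Y r) i j) volume a b := by
  have hu : uIcc a b = Icc a b := uIcc_of_le hab
  have hYe : ∀ i j, ContinuousOn (fun r => Y r i j) (uIcc a b) := by
    intro i j
    rw [hu]
    exact entry_continuousOn hY i j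
  simp only [lindbladian_entry]
  apply IntervalIntegrable.add
  · apply IntervalIntegrable.const_mul
    apply IntervalIntegrable.sub
    · exact ii_sum Finset.univ
        (fun k _ => (drive_entry_integrable hH ha hab i k).mul_continuousOn (hYe k j))
    · exact ii_sum Finset.univ
        (fun k _ => (drive_entry_integrable hH ha hab k j).continuousOn_mul (hYe i k))
  · apply ContinuousOn.intervalIntegrable
    rw [hu]
    have h1 : ContinuousOn (fun r => dissipator L (Y r)) (Icc a b) :=
      (dissipator_continuous L).comp_continuousOn hY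
    exact entry_continuousOn h1 i j

variable {L : Fin m → Op d} {H : ℝ → Op d} {s : ℝ} {Y : ℝ → Op d}

lemma IsSol.contIcc (hY : IsSol L H s Y) {a b : ℝ} (ha : s ≤ a) :
    ContinuousOn Y (Icc a b) :=
  hY.continuousOn.mono (fun _ hx => ha.trans hx.1)

lemma IsSol.incr (hH : IsDrive H) (hs : 0 ≤ s) (hY : IsSol L H s Y) {a b : ℝ} (ha : s ≤ a)
    (hab : a ≤ b) (i j : Fin d) :
    Y b i j - Y a i j = ∫ r in a..b, lindbladian L (H r) (Y r) i j := by
  rw [hY.eq b (ha.trans hab) i j, hY.eq a ha i j]
  rw [← intervalIntegral.integral_add_adjacent_intervals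
    (integrable_lindbladian L hH hs ha (hY.contIcc le_rfl) i j)
    (integrable_lindbladian L hH (hs.trans ha) hab (hY.contIcc ha) i j)]
  ring

lemma IsSol.restrict (hH : IsDrive H) (hs : 0 ≤ s) (hY : IsSol L H s Y) {u : ℝ} (hu : s ≤ u) :
    IsSol L H u Y := by
  refine ⟨fun i j => (hY.cont i j).mono (Ici_subset_Ici.2 hu), fun t ht i j => ?_⟩
  rw [← hY.incr hH hs hu ht i j]; ring

lemma IsSol.sub (hH : IsDrive H) (hs : 0 ≤ s) (hY : IsSol L H s Y) {Z : ℝ → Op d}
    (hZ : IsSol L H s Z) : IsSol L H s (fun t => Y t - Z t) := by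
  refine ⟨fun i j => (hY.cont i j).sub (hZ.cont i j), fun t ht i j => ?_⟩
  simp only [lindbladian_sub, Matrix.sub_apply]
  rw [intervalIntegral.integral_sub
    (integrable_lindbladian L hH hs ht (hY.contIcc le_rfl) i j)
    (integrable_lindbladian L hH hs ht (hZ.contIcc le_rfl) i j), hY.eq t ht i j, hZ.eq t ht i j]
  ring

lemma IsSol.smul (c : ℂ) (hY : IsSol L H s Y) : IsSol L H s (fun t => c • Y t) := by
  refine ⟨fun i j => ?_, fun t ht i j => ?_⟩
  · simp only [Matrix.smul_apply, smul_eq_mul]
    exact continuousOn_const.mul (hY.cont i j)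
  · simp only [lindbladian_smul, Matrix.smul_apply, smul_eq_mul]
    rw [intervalIntegral.integral_const_mul, hY.eq t ht i j]
    ring

lemma IsSol.conjTranspose (hH : IsDrive H) (hs : 0 ≤ s) (hY : IsSol L H s Y) :
    IsSol L H s (fun t => (Y t)ᴴ) := by
  refine ⟨fun i j => ?_, fun t ht i j => ?_⟩
  · simp only [Matrix.conjTranspose_apply]
    exact (hY.cont j i).star
  · have h1 : ∫ r in s..t, lindbladian L (H r) (Y r)ᴴ i j
        = ∫ r in s..t, star (lindbladian L (H r) (Y r) j i) := by
      apply intervalIntegral.integral_congr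
      intro r hr
      rw [uIcc_of_le ht] at hr
      show lindbladian L (H r) (Y r)ᴴ i j = star (lindbladian L (H r) (Y r) j i)
      rw [← lindbladian_conjTranspose L (hH.hermitian r (hs.trans hr.1)),
        Matrix.conjTranspose_apply]
    rw [h1]
    simp only [Matrix.conjTranspose_apply]
    rw [hY.eq t ht j i, star_add]
    congr 1
    exact (intervalIntegral.intervalIntegral_conj
      (f := fun r => lindbladian L (H r) (Y r) j i)).symm

/-- bounds on a compact interval. -/
lemma exists_bounds (L : Fin m → Op d) (hH : IsDrive H) (T : ℝ) :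
    ∃ C : ℝ, 0 ≤ C ∧ ∀ r, 0 ≤ r → r ≤ T → ∀ Z : Op d,
      nrm (lindbladian L (H r) Z) ≤ C * nrm Z := by
  obtain ⟨M, hM⟩ := hH.locallyBounded T
  refine ⟨2 * (∑ _i : Fin d, ∑ _j : Fin d, |M|) + dconst L, ?_, fun r hr0 hrT Z => ?_⟩
  · have := dconst_nonneg L
    positivity
  · refine (nrm_lindbladian_le L (H r) Z).trans ?_
    apply mul_le_mul_of_nonneg_right _ (nrm_nonneg Z)
    have : nrm (H r) ≤ ∑ _i : Fin d, ∑ _j : Fin d, |M| := by
      apply Finset.sum_le_sum; intro i _
      apply Finset.sum_le_sum; intro j _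
      exact (hM r hr0 hrT i j).trans (le_abs_self M)
    linarith

lemma IsSol.exists_lip (hH : IsDrive H) (hs : 0 ≤ s) (hY : IsSol L H s Y) (T : ℝ) :
    ∃ K : ℝ, 0 ≤ K ∧ ∀ a b, s ≤ a → a ≤ b → b ≤ T → nrm (Y b - Y a) ≤ K * (b - a) := by
  obtain ⟨C, hC, hCb⟩ := exists_bounds L hH T
  -- bound of Y on [s,T]
  have hcn : ContinuousOn (fun t => nrm (Y t)) (Icc s T) := by
    unfold nrm
    apply continuousOn_finsetSum
    intro i _
    apply continuousOn_finsetSum
    intro j _
    exact ((hY.cont i j).mono Icc_subset_Ici_self).norm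
  obtain ⟨B, hB⟩ := (isCompact_Icc (a := s) (b := T)).exists_bound_of_continuousOn hcn
  have hB0 : ∀ t ∈ Icc s T, nrm (Y t) ≤ |B| := fun t ht =>
    ((le_abs_self _).trans (hB t ht)).trans (le_abs_self B)
  refine ⟨(∑ _i : Fin d, ∑ _j : Fin d, C * |B|), by positivity, fun a b ha hab hb => ?_⟩
  have h1 : ∀ i j, ‖(Y b - Y a) i j‖ ≤ C * |B| * (b - a) := by
    intro i j
    rw [Matrix.sub_apply, hY.incr hH hs ha hab i j]
    have h2 := intervalIntegral.norm_integral_le_of_norm_le_const
      (f := fun r => lindbladian L (H r) (Y r) i j) (a := a) (b := b) (C := C * |B|) ?_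
    · rwa [abs_of_nonneg (by linarith : 0 ≤ b - a)] at h2
    · intro r hr
      rw [uIoc_of_le hab] at hr
      have hr1 : s ≤ r := ha.trans hr.1.le
      have hr2 : r ≤ T := hr.2.trans hb
      calc ‖lindbladian L (H r) (Y r) i j‖ ≤ nrm (lindbladian L (H r) (Y r)) :=
            entry_le_nrm _ i j
        _ ≤ C * nrm (Y r) := hCb r (hs.trans hr1) hr2 _
        _ ≤ C * |B| := mul_le_mul_of_nonneg_left (hB0 r ⟨hr1, hr2⟩) hC
  calc nrm (Y b - Y a) ≤ ∑ _i : Fin d, ∑ _j : Fin d, C * |B| * (b - a) := by
        apply Finset.sum_le_sum; intro i _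
        apply Finset.sum_le_sum; intro j _
        exact h1 i j
    _ = _ := by simp only [Finset.sum_mul]

/-- trace functional against a fixed matrix. -/
lemma trace_incr (hH : IsDrive H) (hs : 0 ≤ s) (hY : IsSol L H s Y) {a b : ℝ} (ha : s ≤ a)
    (hab : a ≤ b) (Q : Op d) :
    IntervalIntegrable (fun r => (Q * lindbladian L (H r) (Y r)).trace.re) volume a b ∧
    (Q * Y b).trace.re - (Q * Y a).trace.re
      = ∫ r in a..b, (Q * lindbladian L (H r) (Y r)).trace.re := by
  have hexp : ∀ M : Op d, (Q * M).trace = ∑ i, ∑ k, Q i k * M k i := by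
    intro M
    rw [Matrix.trace]
    apply Finset.sum_congr rfl; intro i _
    rw [Matrix.diag_apply, Matrix.mul_apply]
  have hint : ∀ i j, IntervalIntegrable (fun r => lindbladian L (H r) (Y r) i j) volume a b :=
    fun i j => integrable_lindbladian L hH (hs.trans ha) hab (hY.contIcc ha) i j
  have hint2 : ∀ i, IntervalIntegrable
      (fun r => ∑ k, Q i k * lindbladian L (H r) (Y r) k i) volume a b := by
    intro i
    exact ii_sum Finset.univ (fun k _ => (hint k i).const_mul (Q i k))
  have hint3 : IntervalIntegrable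
      (fun r => (Q * lindbladian L (H r) (Y r)).trace) volume a b := by
    simp only [hexp]
    exact ii_sum Finset.univ (fun i _ => hint2 i)
  have hval : (Q * Y b).trace - (Q * Y a).trace
      = ∫ r in a..b, (Q * lindbladian L (H r) (Y r)).trace := by
    simp only [hexp]
    rw [intervalIntegral.integral_finsetSum (fun i _ => hint2 i), ← Finset.sum_sub_distrib]
    apply Finset.sum_congr rfl; intro i _
    rw [intervalIntegral.integral_finsetSum (fun k _ => (hint k i).const_mul (Q i k)),
      ← Finset.sum_sub_distrib]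
    apply Finset.sum_congr rfl; intro k _
    rw [intervalIntegral.integral_const_mul, ← hY.incr hH hs ha hab k i]
    ring
  have hre : ∀ r, (Q * lindbladian L (H r) (Y r)).trace.re
      = Complex.reCLM ((Q * lindbladian L (H r) (Y r)).trace) := fun r => rfl
  constructor
  · have := hint3
    rw [intervalIntegrable_iff] at this ⊢
    exact this.re
  · simp only [hre]
    rw [Complex.reCLM.intervalIntegral_comp_comm hint3, ← hval]
    simp

/-- the basic one-step estimate. -/
lemma step_estimate (hH : IsDrive H) (hs : 0 ≤ s) (hY : IsSol L H s Y) (T : ℝ) :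
    ∃ K : ℝ, 0 ≤ K ∧ ∀ x z, s ≤ x → x ≤ z → z ≤ T → ∀ r (Q : Op d), Q ∈ Proj d r →
      Q * Y z = Y z * Q →
      (z - x) * (Q * dissipator L (Y z)).trace.re - K * (z - x) ^ 2
        ≤ (Q * Y z).trace.re - (Q * Y x).trace.re := by
  obtain ⟨C, hC, hCb⟩ := exists_bounds L hH T
  obtain ⟨K, hK, hKb⟩ := hY.exists_lip hH hs T
  refine ⟨C * K, by positivity, fun x z hx hxz hz r Q hQ hc => ?_⟩
  obtain ⟨hint, hval⟩ := trace_incr hH hs hY hx hxz Q
  rw [hval]
  set D := (Q * dissipator L (Y z)).trace.re with hD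
  have hconst : ∫ _ in x..z, (D - C * K * (z - x)) = (z - x) * D - C * K * (z - x) ^ 2 := by
    rw [intervalIntegral.integral_const, smul_eq_mul]; ring
  rw [← hconst]
  apply intervalIntegral.integral_mono_on hxz intervalIntegrable_const hint
  intro u hu
  have h1 : (Q * lindbladian L (H u) (Y u)).trace.re
      = D + (Q * lindbladian L (H u) (Y u - Y z)).trace.re := by
    rw [hD, ← trace_Q_lindbladian L hc (H u), lindbladian_sub, Matrix.mul_sub, Matrix.trace_sub,
      Complex.sub_re]
    ring
  rw [h1]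
  have h2 := abs_trace_mul_le hQ (lindbladian L (H u) (Y u - Y z))
  have h3 := hCb u (hs.trans (hx.trans hu.1)) (hu.2.trans hz) (Y u - Y z)
  have h4 : nrm (Y u - Y z) ≤ K * (z - x) := by
    rw [nrm_sub_rev]
    refine (hKb u z (hx.trans hu.1) hu.2 hz).trans ?_
    apply mul_le_mul_of_nonneg_left _ hK
    linarith [hu.1]
  have h5 : C * nrm (Y u - Y z) ≤ C * (K * (z - x)) := mul_le_mul_of_nonneg_left h4 hC
  have h6 := neg_abs_le ((Q * lindbladian L (H u) (Y u - Y z)).trace.re)
  have h7 : C * (K * (z - x)) = C * K * (z - x) := by ring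
  linarith

/-- Uniqueness of solutions. -/
lemma IsSol.unique (hH : IsDrive H) (hs : 0 ≤ s) (hY : IsSol L H s Y) {Z : ℝ → Op d}
    (hZ : IsSol L H s Z) (h0 : Y s = Z s) : ∀ t, s ≤ t → Y t = Z t := by
  intro T hT
  have hW := hY.sub hH hs hZ
  set W : ℝ → Op d := fun t => Y t - Z t with hWdef
  obtain ⟨C, hC, hCb⟩ := exists_bounds L hH T
  obtain ⟨K, hK, hKb⟩ := hW.exists_lip hH hs T
  have hcn : ContinuousOn (fun t => - nrm (W t)) (Icc s T) := by
    apply ContinuousOn.neg
    unfold nrm
    apply continuousOn_finsetSum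
    intro i _
    apply continuousOn_finsetSum
    intro j _
    exact ((hW.cont i j).mono Icc_subset_Ici_self).norm
  have key := fence_nonneg (g := fun t => - nrm (W t)) (a := s) (b := T)
    (K := (∑ _i : Fin d, ∑ _j : Fin d, C * K)) (C := (∑ _i : Fin d, ∑ _j : Fin d, C)) hcn ?_ ?_
  · have h1 := key T ⟨hT, le_rfl⟩
    have h2 : W T = 0 := eq_zero_of_nrm (by linarith)
    rw [hWdef] at h2
    exact sub_eq_zero.1 h2
  · intro x z hx hxz hz
    have hlip : nrm (W z - W x)
        ≤ ∑ _i : Fin d, ∑ _j : Fin d, (C * nrm (W z) * (z - x) + C * K * (z - x) ^ 2) := by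
      apply Finset.sum_le_sum; intro i _
      apply Finset.sum_le_sum; intro j _
      rw [Matrix.sub_apply, hW.incr hH hs hx hxz i j]
      have h2 := intervalIntegral.norm_integral_le_of_norm_le_const
        (f := fun r => lindbladian L (H r) (W r) i j) (a := x) (b := z)
        (C := C * (nrm (W z) + K * (z - x))) ?_
      · rw [abs_of_nonneg (by linarith : 0 ≤ z - x)] at h2
        refine h2.trans (le_of_eq ?_)
        ring
      · intro r hr
        rw [uIoc_of_le hxz] at hr
        have hr1 : s ≤ r := hx.trans hr.1.le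
        have hr2 : r ≤ T := hr.2.trans hz
        have h3 : nrm (W r) ≤ nrm (W z) + K * (z - x) := by
          have h4 : W r = W z - (W z - W r) := by abel
          have h5 := nrm_sub_le (W z) (W z - W r)
          rw [← h4] at h5
          have h6 := hKb r z hr1 hr.2 hz
          have h7 : K * (z - r) ≤ K * (z - x) :=
            mul_le_mul_of_nonneg_left (by linarith [hr.1]) hK
          linarith
        calc ‖lindbladian L (H r) (W r) i j‖ ≤ nrm (lindbladian L (H r) (W r)) :=
              entry_le_nrm _ i j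
          _ ≤ C * nrm (W r) := hCb r (hs.trans hr1) hr2 _
          _ ≤ _ := mul_le_mul_of_nonneg_left h3 hC
    have hn : nrm (W z) ≤ nrm (W x) + nrm (W z - W x) := by
      have h4 : W z = W x + (W z - W x) := by abel
      conv_lhs => rw [h4]
      exact nrm_add_le _ _
    simp only [Finset.sum_add_distrib] at hlip
    have e1 : ∑ _i : Fin d, ∑ _j : Fin d, C * nrm (W z) * (z - x)
        = (∑ _i : Fin d, ∑ _j : Fin d, C) * nrm (W z) * (z - x) := by
      simp only [Finset.sum_mul]
    have e2 : ∑ _i : Fin d, ∑ _j : Fin d, C * K * (z - x) ^ 2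
        = (∑ _i : Fin d, ∑ _j : Fin d, C * K) * (z - x) ^ 2 := by
      simp only [Finset.sum_mul]
    rw [e1, e2] at hlip
    have habs : |-nrm (W z)| = nrm (W z) := by rw [abs_neg, abs_of_nonneg (nrm_nonneg _)]
    simp only [habs]
    nlinarith
  · have : W s = 0 := by rw [hWdef]; simp [h0]
    simp [this]

end Pool.Agent.Helper57.Lindblad
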