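import Mathlib
import Pool.Agent.Helper57.Lindblad.Sol

/-!
Existence of the propagator by Picard (Dyson) iteration (MP_4e5d1f_mp).
-/

namespace Pool.Agent.Helper57.Lindblad

open scoped Matrix ComplexOrder
open Matrix MeasureTheory Set

variable {d m : ℕ}

/-- Picard iterates. -/
noncomputable def pic (L : Fin m → Op d) (H : ℝ → Op d) (s : ℝ) (ρ : Op d) : ℕ → ℝ → Op d
  | 0 => fun _ => ρ
  | (n + 1) => fun t => Matrix.of fun i j => ∫ r in s..t, lindbladian L (H r) (pic L H s ρ n r) i j

variable {L : Fin m → Op d} {H : ℝ → Op d} {s : ℝ}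

lemma pic_cont (hH : IsDrive H) (hs : 0 ≤ s) (ρ : Op d) (n : ℕ) :
    ContinuousOn (pic L H s ρ n) (Ici s) := by
  induction n with
  | zero => exact continuousOn_const
  | succ n ih =>
    rw [continuousOn_iff_continuous_domRestrict]
    apply continuous_matrix
    intro i j
    have hgoal : ContinuousOn (fun t => pic L H s ρ (n + 1) t i j) (Ici s) := ?_
    · exact continuousOn_iff_continuous_domRestrict.1 hgoal
    intro x hx
    have hx' : s ≤ x := hx
    have h1 : ContinuousOn (fun t => ∫ r in s..t, lindbladian L (H r) (pic L H s ρ n r) i j)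
        (Icc s (x + 1)) := by
      have h2 : IntegrableOn (fun r => lindbladian L (H r) (pic L H s ρ n r) i j)
          (uIcc s (x + 1)) volume := by
        rw [uIcc_of_le (by linarith : s ≤ x + 1), integrableOn_Icc_iff_integrableOn_Ioc,
          ← intervalIntegrable_iff_integrableOn_Ioc_of_le (by linarith : s ≤ x + 1)]
        exact integrable_lindbladian L hH hs (by linarith) (ih.mono Icc_subset_Ici_self) i j
      have h3 := intervalIntegral.continuousOn_primitive_interval h2
      rwa [uIcc_of_le (by linarith : s ≤ x + 1)] at h3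
    have h4 : ContinuousWithinAt (fun t => pic L H s ρ (n + 1) t i j) (Icc s (x + 1)) x :=
      h1 x ⟨hx', by linarith⟩
    apply h4.mono_of_mem_nhdsWithin
    have h5 : Iio (x + 1) ∈ nhds x := Iio_mem_nhds (by linarith)
    have h6 : Ici s ∩ Iio (x + 1) ∈ nhdsWithin x (Ici s) := inter_mem_nhdsWithin _ h5
    exact Filter.mem_of_superset h6 (fun y hy => ⟨hy.1, hy.2.le⟩)

lemma pic_bound (hs : 0 ≤ s) (ρ : Op d) {T C : ℝ} (hC : 0 ≤ C)
    (hCb : ∀ r, 0 ≤ r → r ≤ T → ∀ Z : Op d, nrm (lindbladian L (H r) Z) ≤ C * nrm Z) (n : ℕ) :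
    ∀ t ∈ Icc s T, nrm (pic L H s ρ n t)
      ≤ ((∑ _i : Fin d, ∑ _j : Fin d, C) * (t - s)) ^ n / n.factorial * nrm ρ := by
  set D : ℝ := ∑ _i : Fin d, ∑ _j : Fin d, C with hD
  have hD0 : 0 ≤ D := by positivity
  induction n with
  | zero => intro t _; simp [pic]
  | succ n ih =>
    intro t ht
    have h1 : ∀ i j, ‖pic L H s ρ (n + 1) t i j‖
        ≤ C * (D ^ n / n.factorial * nrm ρ) * ((t - s) ^ (n + 1) / (n + 1)) := by
      intro i j
      have hpic : pic L H s ρ (n + 1) t i j
          = ∫ r in s..t, lindbladian L (H r) (pic L H s ρ n r) i j := rfl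
      rw [hpic]
      have hgi : IntervalIntegrable
          (fun r => C * (D ^ n / n.factorial * nrm ρ) * (r - s) ^ n) volume s t := by
        apply Continuous.intervalIntegrable
        fun_prop
      have h2 := intervalIntegral.norm_integral_le_of_norm_le
        (f := fun r => lindbladian L (H r) (pic L H s ρ n r) i j)
        (g := fun r => C * (D ^ n / n.factorial * nrm ρ) * (r - s) ^ n) ht.1 ?_ hgi
      · refine h2.trans (le_of_eq ?_)
        rw [intervalIntegral.integral_const_mul,
          intervalIntegral.integral_comp_sub_right (fun x => x ^ n) s, integral_pow]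
        simp
      · apply Filter.Eventually.of_forall
        intro r hr
        have hr1 : r ∈ Icc s T := ⟨hr.1.le, hr.2.trans ht.2⟩
        calc ‖lindbladian L (H r) (pic L H s ρ n r) i j‖
            ≤ nrm (lindbladian L (H r) (pic L H s ρ n r)) := entry_le_nrm _ i j
          _ ≤ C * nrm (pic L H s ρ n r) := hCb r (hs.trans hr1.1) hr1.2 _
          _ ≤ C * ((D * (r - s)) ^ n / n.factorial * nrm ρ) :=
              mul_le_mul_of_nonneg_left (ih r hr1) hC
          _ = _ := by rw [mul_pow]; ring
    calc nrm (pic L H s ρ (n + 1) t)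
        ≤ ∑ _i : Fin d, ∑ _j : Fin d,
            C * (D ^ n / n.factorial * nrm ρ) * ((t - s) ^ (n + 1) / (n + 1)) := by
          apply Finset.sum_le_sum; intro i _
          apply Finset.sum_le_sum; intro j _
          exact h1 i j
      _ = D * (D ^ n / n.factorial * nrm ρ) * ((t - s) ^ (n + 1) / (n + 1)) := by
          rw [hD]; simp only [Finset.sum_mul]
      _ = _ := by
          rw [Nat.factorial_succ, mul_pow]
          push_cast
          have : ((n : ℝ) + 1) ≠ 0 := by positivity
          have h2 : (n.factorial : ℝ) ≠ 0 := by positivity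
          field_simp
          ring

/-- lindbladian as an additive map evaluated at an entry. -/
noncomputable def lindEntry (L : Fin m → Op d) (H : Op d) (i j : Fin d) : Op d →+ ℂ where
  toFun Y := lindbladian L H Y i j
  map_zero' := by
    have := lindbladian_smul L H 0 (0 : Op d)
    rw [zero_smul, zero_smul] at this
    rw [this]; rfl
  map_add' Y Z := by rw [lindbladian_add]; rfl

lemma lindEntry_continuous (L : Fin m → Op d) (H : Op d) (i j : Fin d) :
    Continuous (lindEntry L H i j) := by
  show Continuous (fun Y => lindbladian L H Y i j)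
  have h : Continuous (fun Y : Op d => lindbladian L H Y) := by
    unfold lindbladian
    have := dissipator_continuous L
    fun_prop
  exact h.matrix_elem i j

lemma exists_sol (L : Fin m → Op d) (hH : IsDrive H) (hs : 0 ≤ s) (ρ : Op d) :
    ∃ Y : ℝ → Op d, IsSol L H s Y ∧ Y s = ρ := by
  -- the sum of the Picard iterates
  have hsumm : ∀ t, s ≤ t → ∀ i j, Summable fun n => pic L H s ρ n t i j := by
    intro t ht i j
    obtain ⟨C, hC, hCb⟩ := exists_bounds L hH t
    set D : ℝ := ∑ _i : Fin d, ∑ _j : Fin d, C with hD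
    apply Summable.of_norm_bounded
      (g := fun n => (D * (t - s)) ^ n / n.factorial * nrm ρ)
    · exact (Real.summable_pow_div_factorial _).mul_right _
    · intro n
      exact (entry_le_nrm _ i j).trans (pic_bound hs ρ hC hCb n t ⟨ht, le_rfl⟩)
  set Y : ℝ → Op d := fun t => Matrix.of fun i j => ∑' n, pic L H s ρ n t i j with hYdef
  have hYsum : ∀ t, s ≤ t → HasSum (fun n => pic L H s ρ n t) (Y t) := by
    intro t ht
    apply Pi.hasSum.2
    intro i
    apply Pi.hasSum.2
    intro j
    exact (hsumm t ht i j).hasSum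
  have heq : ∀ t, s ≤ t → ∀ i j,
      Y t i j = ρ i j + ∫ r in s..t, lindbladian L (H r) (Y r) i j := by
    intro t ht i j
    obtain ⟨C, hC, hCb⟩ := exists_bounds L hH t
    set D : ℝ := ∑ _i : Fin d, ∑ _j : Fin d, C with hD
    have hD0 : 0 ≤ D := by positivity
    have hS : HasSum (fun n => ∫ r in s..t, lindbladian L (H r) (pic L H s ρ n r) i j)
        (∫ r in s..t, lindbladian L (H r) (Y r) i j) := by
      apply intervalIntegral.hasSum_integral_of_dominated_convergence
        (bound := fun n _ => C * ((D * (t - s)) ^ n / n.factorial * nrm ρ))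
      · intro n
        have h1 := integrable_lindbladian L hH hs ht
          ((pic_cont (L := L) hH hs ρ n).mono Icc_subset_Ici_self) i j
        exact h1.aestronglyMeasurable_restrict_uIoc
      · intro n
        apply Filter.Eventually.of_forall
        intro r hr
        rw [uIoc_of_le ht] at hr
        have hr1 : r ∈ Icc s t := ⟨hr.1.le, hr.2⟩
        calc ‖lindbladian L (H r) (pic L H s ρ n r) i j‖
            ≤ nrm (lindbladian L (H r) (pic L H s ρ n r)) := entry_le_nrm _ i j
          _ ≤ C * nrm (pic L H s ρ n r) := hCb r (hs.trans hr1.1) hr1.2 _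
          _ ≤ C * ((D * (r - s)) ^ n / n.factorial * nrm ρ) :=
              mul_le_mul_of_nonneg_left (pic_bound hs ρ hC hCb n r hr1) hC
          _ ≤ C * ((D * (t - s)) ^ n / n.factorial * nrm ρ) := by
              apply mul_le_mul_of_nonneg_left _ hC
              apply mul_le_mul_of_nonneg_right _ (nrm_nonneg _)
              apply div_le_div_of_nonneg_right _ (by positivity)
              apply pow_le_pow_left₀ (mul_nonneg hD0 (by linarith [hr1.1]))
              apply mul_le_mul_of_nonneg_left _ hD0
              linarith [hr1.2]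
      · apply Filter.Eventually.of_forall
        intro r _
        exact ((Real.summable_pow_div_factorial _).mul_right _).mul_left _
      · exact intervalIntegrable_const
      · apply Filter.Eventually.of_forall
        intro r hr
        rw [uIoc_of_le ht] at hr
        exact (hYsum r hr.1.le).map (lindEntry L (H r) i j) (lindEntry_continuous L (H r) i j)
    have hS2 : HasSum (fun n => pic L H s ρ (n + 1) t i j)
        (∫ r in s..t, lindbladian L (H r) (Y r) i j) := hS
    have hS3 := (hasSum_nat_add_iff (f := fun n => pic L H s ρ n t i j) 1).1 hS2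
    have hS4 : HasSum (fun n => pic L H s ρ n t i j) (Y t i j) := (hsumm t ht i j).hasSum
    have := hS4.unique hS3
    rw [this]
    simp [pic, add_comm]
  have hcont : ∀ i j, ContinuousOn (fun t => Y t i j) (Ici s) := by
    intro i j x hx
    have hx' : s ≤ x := hx
    obtain ⟨C, hC, hCb⟩ := exists_bounds L hH (x + 1)
    set D : ℝ := ∑ _i : Fin d, ∑ _j : Fin d, C with hD
    have hD0 : 0 ≤ D := by positivity
    have h1 : ContinuousOn (fun t => ∑' n, pic L H s ρ n t i j) (Icc s (x + 1)) := by
      apply continuousOn_tsum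
        (u := fun n => (D * (x + 1 - s)) ^ n / n.factorial * nrm ρ)
      · intro n
        exact entry_continuousOn ((pic_cont (L := L) hH hs ρ n).mono Icc_subset_Ici_self) i j
      · exact (Real.summable_pow_div_factorial _).mul_right _
      · intro n r hr
        refine (entry_le_nrm _ i j).trans ((pic_bound hs ρ hC hCb n r hr).trans ?_)
        apply mul_le_mul_of_nonneg_right _ (nrm_nonneg _)
        apply div_le_div_of_nonneg_right _ (by positivity)
        apply pow_le_pow_left₀ (mul_nonneg hD0 (by linarith [hr.1]))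
        apply mul_le_mul_of_nonneg_left _ hD0
        linarith [hr.2]
    have h4 : ContinuousWithinAt (fun t => Y t i j) (Icc s (x + 1)) x :=
      h1 x ⟨hx', by linarith⟩
    apply h4.mono_of_mem_nhdsWithin
    have h5 : Iio (x + 1) ∈ nhds x := Iio_mem_nhds (by linarith)
    have h6 : Ici s ∩ Iio (x + 1) ∈ nhdsWithin x (Ici s) := inter_mem_nhdsWithin _ h5
    exact Filter.mem_of_superset h6 (fun y hy => ⟨hy.1, hy.2.le⟩)
  have hYs : Y s = ρ := by
    ext i j
    have := heq s le_rfl i j
    rw [intervalIntegral.integral_same, add_zero] at this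
    exact this
  refine ⟨Y, ⟨hcont, fun t ht i j => ?_⟩, hYs⟩
  rw [hYs]
  exact heq t ht i j

lemma IsSol.add (hH : IsDrive H) (hs : 0 ≤ s) {Y : ℝ → Op d} (hY : IsSol L H s Y) {Z : ℝ → Op d}
    (hZ : IsSol L H s Z) : IsSol L H s (fun t => Y t + Z t) := by
  refine ⟨fun i j => (hY.cont i j).add (hZ.cont i j), fun t ht i j => ?_⟩
  simp only [lindbladian_add, Matrix.add_apply]
  rw [intervalIntegral.integral_add
    (integrable_lindbladian L hH hs ht (hY.contIcc le_rfl) i j)
    (integrable_lindbladian L hH hs ht (hZ.contIcc le_rfl) i j), hY.eq t ht i j, hZ.eq t ht i j]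
  ring

/-- The propagator exists. -/
theorem exists_propagator (L : Fin m → Op d) (hH : IsDrive H) :
    ∃ E : ℝ → ℝ → (Op d →ₗ[ℂ] Op d), IsPropagator L H E := by
  classical
  have hex : ∀ s : ℝ, ∀ ρ : Op d, ∃ Y : ℝ → Op d, 0 ≤ s → (IsSol L H s Y ∧ Y s = ρ) := by
    intro s ρ
    by_cases hs : 0 ≤ s
    · obtain ⟨Y, hY⟩ := exists_sol L hH hs ρ
      exact ⟨Y, fun _ => hY⟩
    · exact ⟨fun _ => 0, fun h => absurd h hs⟩
  choose Y hY using hex
  have hlin : ∀ t s, 0 ≤ s → s ≤ t → ∃ F : Op d →ₗ[ℂ] Op d, ∀ ρ, F ρ = Y s ρ t := by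
    intro t s hs hst
    refine ⟨{ toFun := fun ρ => Y s ρ t, map_add' := ?_, map_smul' := ?_ }, fun ρ => rfl⟩
    · intro ρ σ
      have h1 := (hY s (ρ + σ) hs).1.unique hH hs
        (((hY s ρ hs).1).add hH hs ((hY s σ hs).1))
        (by rw [(hY s (ρ + σ) hs).2, (hY s ρ hs).2, (hY s σ hs).2]) t hst
      exact h1
    · intro c ρ
      have h1 := (hY s (c • ρ) hs).1.unique hH hs (((hY s ρ hs).1).smul c)
        (by rw [(hY s (c • ρ) hs).2, (hY s ρ hs).2]) t hst
      exact h1
  have hlin2 : ∀ t s : ℝ, ∃ F : Op d →ₗ[ℂ] Op d, 0 ≤ s → s ≤ t → ∀ ρ, F ρ = Y s ρ t := by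
    intro t s
    by_cases h : 0 ≤ s ∧ s ≤ t
    · obtain ⟨F, hF⟩ := hlin t s h.1 h.2
      exact ⟨F, fun _ _ => hF⟩
    · exact ⟨0, fun h1 h2 => absurd ⟨h1, h2⟩ h⟩
  choose E hE using hlin2
  refine ⟨E, ?_, ?_, ?_⟩
  · intro s hs
    ext1 ρ
    rw [hE s s hs le_rfl ρ, (hY s ρ hs).2]; rfl
  · intro s hs ρ i j
    apply ((hY s ρ hs).1.cont i j).congr
    intro t ht
    show E t s ρ i j = Y s ρ t i j
    rw [hE t s hs ht ρ]
  · intro s t hs hst ρ i j
    rw [hE t s hs hst ρ, (hY s ρ hs).1.eq t hst i j, (hY s ρ hs).2]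
    congr 1
    apply intervalIntegral.integral_congr
    intro r hr
    rw [uIcc_of_le hst] at hr
    show lindbladian L (H r) (Y s ρ r) i j = lindbladian L (H r) (E r s ρ) i j
    rw [hE r s hs hr.1 ρ]

end Pool.Agent.Helper57.Lindblad
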