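import Mathlib
import Pool.Agent.Helper57.Lindblad.Sol

/-!
Positivity and uniform minorisation (MP_4e5d1f_mp).
-/

namespace Pool.Agent.Helper57.Lindblad

open scoped Matrix ComplexOrder
open Matrix MeasureTheory Set

variable {d m : ℕ}

lemma exists_min {r : ℕ} (hr : r ≤ d) {Y : Op d} (hY : Y.IsHermitian) :
    ∃ Q ∈ Proj d r, (Q * Y).trace.re = low r Y := by
  obtain ⟨U, hU, hU', hY2⟩ := exists_spectral hY
  obtain ⟨S, hS, hlow⟩ := exists_low_set hY.eigenvalues hr
  have hm : sp U S ∈ Proj d r := hS ▸ sp_mem hU S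
  have hlr : low r Y = ∑ i ∈ S, hY.eigenvalues i := low_eq hU hU' hY2 hS hlow
  refine ⟨sp U S, hm, ?_⟩
  rw [hlr]
  conv_lhs => rw [hY2]
  exact trace_sp_mul hU S _

lemma low_lip {r : ℕ} (hr : r ≤ d) {Y Z : Op d} (hY : Y.IsHermitian) (hZ : Z.IsHermitian) :
    low r Y ≤ low r Z + nrm (Y - Z) := by
  obtain ⟨Q, hQ, hQZ⟩ := exists_min hr hZ
  have h1 := low_le hr hY hQ
  have h2 : (Q * Y).trace.re = (Q * Z).trace.re + (Q * (Y - Z)).trace.re := by
    rw [Matrix.mul_sub, Matrix.trace_sub, Complex.sub_re]; ring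
  have h3 := (le_abs_self _).trans (abs_trace_mul_le hQ (Y - Z))
  linarith

lemma low_top {Y : Op d} (hY : Y.IsHermitian) : low d Y = Y.trace.re := by
  obtain ⟨U, hU, hU', hY2⟩ := exists_spectral hY
  have h := low_eq (r := d) (S := Finset.univ) hU hU' hY2 (by simp) (by simp)
  rw [h]
  conv_rhs => rw [hY2]
  rw [trace_conj hU, Matrix.trace_diagonal, Complex.re_sum]
  simp

lemma sub_psd_of_low {Y : Op d} (hY : Y.IsHermitian) {δ : ℝ} (h : δ ≤ low 1 Y) :
    (Y - (δ : ℂ) • (1 : Op d)).PosSemidef := by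
  obtain ⟨U, hU, hU', hY2⟩ := exists_spectral hY
  set lam := hY.eigenvalues with hlam
  have hge : ∀ i, δ ≤ lam i := by
    intro i
    have hd : 1 ≤ d := by have := i.2; omega
    have h1 : sp U {i} ∈ Proj d 1 := by
      have := sp_mem hU ({i} : Finset (Fin d))
      rwa [Finset.card_singleton] at this
    have h2 := low_le hd hY h1
    have h3 : (sp U {i} * Y).trace.re = lam i := by
      conv_lhs => rw [hY2]
      rw [trace_sp_mul hU, Finset.sum_singleton]
    linarith
  have : Y - (δ : ℂ) • (1 : Op d) = U * diagonal (fun i => ((lam i - δ : ℝ) : ℂ)) * Uᴴ := by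
    conv_lhs => rw [hY2, ← conj_one hU']
    rw [← Matrix.smul_mul, ← Matrix.mul_smul, ← Matrix.sub_mul, ← Matrix.mul_sub]
    congr 2
    ext i j
    by_cases h : i = j
    · subst h; simp
    · simp [h]
  rw [this]
  apply conj_diag_psd
  intro i
  have := hge i; linarith

lemma psd_of_low {Y : Op d} (hY : Y.IsHermitian) (h : 0 ≤ low 1 Y) : Y.PosSemidef := by
  have := sub_psd_of_low hY h
  simpa using this

lemma low_nonneg {r : ℕ} (hr : r ≤ d) {Y : Op d} (hY : Y.PosSemidef) : 0 ≤ low r Y := by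
  obtain ⟨Q, hQ, hQY⟩ := exists_min hr hY.1
  rw [← hQY]
  exact trace_mul_re_nonneg (Proj.psd hQ) hY

variable {L : Fin m → Op d} {H : ℝ → Op d} {s : ℝ} {Y : ℝ → Op d}

lemma IsSol.herm (hH : IsDrive H) (hs : 0 ≤ s) (hY : IsSol L H s Y) (h0 : (Y s).IsHermitian) :
    ∀ t, s ≤ t → (Y t).IsHermitian := by
  intro t ht
  have h1 := (hY.conjTranspose hH hs).unique hH hs hY h0.eq t ht
  exact h1

lemma IsSol.trace_re (hH : IsDrive H) (hs : 0 ≤ s) (hY : IsSol L H s Y) :
    ∀ t, s ≤ t → (Y t).trace.re = (Y s).trace.re := by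
  intro t ht
  have h := (trace_incr hH hs hY le_rfl ht 1).2
  simp only [Matrix.one_mul, trace_lindbladian, Complex.zero_re,
    intervalIntegral.integral_zero] at h
  linarith

lemma IsSol.low_cont (hH : IsDrive H) (hs : 0 ≤ s) (hY : IsSol L H s Y)
    (h0 : (Y s).IsHermitian) {r : ℕ} (hr : r ≤ d) (T : ℝ) :
    ContinuousOn (fun t => low r (Y t)) (Icc s T) := by
  obtain ⟨K, hK, hKb⟩ := hY.exists_lip hH hs T
  have hh := hY.herm hH hs h0
  have key : ∀ x ∈ Icc s T, ∀ y ∈ Icc s T, x ≤ y →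
      |low r (Y x) - low r (Y y)| ≤ K * |x - y| := by
    intro x hx y hy hxy
    have h1 := low_lip hr (hh x hx.1) (hh y hy.1)
    have h2 := low_lip hr (hh y hy.1) (hh x hx.1)
    have h3 := hKb x y hx.1 hxy hy.2
    rw [nrm_sub_rev] at h1
    rw [abs_sub_comm x y, abs_of_nonneg (by linarith : 0 ≤ y - x), abs_le]
    constructor <;> linarith
  have hl : LipschitzOnWith ⟨K, hK⟩ (fun t => low r (Y t)) (Icc s T) := by
    apply LipschitzOnWith.of_dist_le_mul
    intro x hx y hy
    rw [Real.dist_eq, Real.dist_eq]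
    rcases le_total x y with h | h
    · exact key x hx y hy h
    · rw [abs_sub_comm, abs_sub_comm x y]
      exact key y hy x hx h
  exact hl.continuousOn

/-- Positivity is preserved. -/
lemma IsSol.psd (hd : 1 ≤ d) (hH : IsDrive H) (hs : 0 ≤ s) (hY : IsSol L H s Y)
    (h0 : (Y s).PosSemidef) : ∀ t, s ≤ t → (Y t).PosSemidef := by
  intro T hT
  have hh := hY.herm hH hs h0.1
  obtain ⟨K, hK, hKb⟩ := step_estimate hH hs hY T
  have key := fence_nonneg (g := fun t => low 1 (Y t)) (a := s) (b := T) (K := K)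
    (C := strength L) (hY.low_cont hH hs h0.1 hd T) ?_ (low_nonneg hd h0)
  · exact psd_of_low (hh T hT) (key T ⟨hT, le_rfl⟩)
  · intro x z hx hxz hz
    obtain ⟨Q, hQ, hc, hval, hD⟩ := exists_min_proj_one L hd (hh z (hx.trans hxz))
    have h1 := hKb x z hx hxz hz 1 Q hQ hc
    have h2 := low_le hd (hh x hx) hQ
    have h3 : 0 ≤ z - x := by linarith
    have h4 := mul_le_mul_of_nonneg_left hD h3
    linarith

/-- the constants of the lower bound. -/
noncomputable def acoef (κ C : ℝ) : ℕ → ℝ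
  | 0 => 1
  | (k + 1) => κ * acoef κ C k / (k + 1 + κ + C)

lemma acoef_pos {κ C : ℝ} (hκ : 0 < κ) (hC : 0 ≤ C) : ∀ k, 0 < acoef κ C k := by
  intro k
  induction k with
  | zero => exact one_pos
  | succ k ih => unfold acoef; positivity

/-- Uniform minorisation after unit time. -/
lemma minor (hd : 1 ≤ d) (hH : IsDrive H) (hs : 0 ≤ s) (hY : IsSol L H s Y)
    (h0 : (Y s).PosSemidef) (htr : (Y s).trace.re = 1) {κ : ℝ} (hκ : 0 < κ)
    (hleak : ∀ r, r ≠ 0 → r < d → ∀ Q ∈ Proj d r, κ ≤ leak L Q) :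
    acoef κ (strength L) (d - 1) ≤ low 1 (Y (s + 1)) := by
  have hh := hY.herm hH hs h0.1
  have hp := hY.psd hd hH hs h0
  have ht := hY.trace_re hH hs
  obtain ⟨K, hK, hKb⟩ := step_estimate hH hs hY (s + 1)
  have key : ∀ k, k + 1 ≤ d → ∀ t ∈ Icc s (s + 1),
      acoef κ (strength L) k * (t - s) ^ k ≤ low (d - k) (Y t) := by
    intro k
    induction k with
    | zero =>
      intro _ t htI
      simp only [Nat.sub_zero, pow_zero, mul_one, acoef]
      rw [low_top (hh t htI.1), ht t htI.1, htr]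
    | succ k ih =>
      intro hk
      have hr : (d - (k + 1)) + 1 = d - k := by omega
      have hr0 : d - (k + 1) ≠ 0 := by omega
      have hrd : d - (k + 1) < d := by omega
      have hstep := fence_pow (g := fun t => low (d - (k + 1)) (Y t))
        (h := fun t => low (d - k) (Y t)) (a := s) (b := s + 1) (K := K) (C := strength L)
        (κ := κ) (A := acoef κ (strength L) k) k le_rfl (strength_nonneg L) hκ
        (acoef_pos hκ (strength_nonneg L) k).le
        (hY.low_cont hH hs h0.1 (by omega) (s + 1)) (hY.low_cont hH hs h0.1 (by omega) (s + 1))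
        ?_ (ih (by omega)) (low_nonneg (by omega) h0)
      · intro t htI
        exact hstep t htI
      · intro x z hx hxz hz
        obtain ⟨Q, hQ, hc, hval, hgap, hD⟩ :=
          exists_min_proj L (r := d - (k + 1)) (by omega) (hp z (hx.trans hxz))
        rw [hr] at hgap hD
        have h1 := hKb x z hx hxz hz _ Q hQ hc
        have h2 := low_le (r := d - (k + 1)) (by omega) (hh x hx) hQ
        have h3 : 0 ≤ z - x := by linarith
        have h4 := hleak _ hr0 hrd Q hQ
        have h5 := mul_le_mul_of_nonneg_right h4 hgap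
        have h6 : κ * (low (d - k) (Y z) - low (d - (k + 1)) (Y z))
            - strength L * low (d - (k + 1)) (Y z) ≤ (Q * dissipator L (Y z)).trace.re := by
          linarith
        have h7 := mul_le_mul_of_nonneg_left h6 h3
        linarith
  have h1 := key (d - 1) (by omega) (s + 1) ⟨by linarith, le_rfl⟩
  have h2 : d - (d - 1) = 1 := by omega
  rw [h2] at h1
  simpa using h1

end Pool.Agent.Helper57.Lindblad
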