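import Mathlib
import Pool.Agent.Helper57.Lindblad.Minor

/-!
The trace norm of Hermitian matrices (MP_4e5d1f_mp).
-/

namespace Pool.Agent.Helper57.Lindblad

open scoped Matrix ComplexOrder
open Matrix MeasureTheory Set

variable {d m : ℕ}

/-- the trace norm of a Hermitian matrix is the sum of the absolute values of its eigenvalues. -/
lemma traceNorm_eq {U : Op d} (hU : Uᴴ * U = 1) (_hU' : U * Uᴴ = 1) {X : Op d}
    {lam : Fin d → ℝ} (hX2 : X = U * diagonal (fun i => (lam i : ℂ)) * Uᴴ) :
    traceNorm X = ∑ i, |lam i| := by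
  have hH : Xᴴ = X := by
    rw [hX2]
    simp only [Matrix.conjTranspose_mul, Matrix.conjTranspose_conjTranspose,
      Matrix.diagonal_conjTranspose, Matrix.mul_assoc]
    congr 3
    ext i
    simp
  have hsq : Xᴴ * X = U * diagonal (fun i => ((lam i ^ 2 : ℝ) : ℂ)) * Uᴴ := by
    rw [hH]
    conv_lhs => rw [hX2]
    rw [conj_mul hU, Matrix.diagonal_mul_diagonal]
    congr 3
    ext i
    push_cast; ring
  have hch : (Xᴴ * X).charpoly
      = ∏ i, (Polynomial.X - Polynomial.C (((lam i ^ 2 : ℝ) : ℂ))) := by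
    rw [hsq, Matrix.charpoly_mul_comm, ← Matrix.mul_assoc, hU, Matrix.one_mul,
      Matrix.charpoly_diagonal]
  have hroots : (Xᴴ * X).charpoly.roots
      = Multiset.map (fun i => ((lam i ^ 2 : ℝ) : ℂ)) Finset.univ.val := by
    rw [hch]
    have := Polynomial.roots_multiset_prod_X_sub_C
      (Multiset.map (fun i => ((lam i ^ 2 : ℝ) : ℂ)) (Finset.univ : Finset (Fin d)).val)
    rw [Multiset.map_map] at this
    exact this
  have h2 := (Matrix.isHermitian_conjTranspose_mul_self X).roots_charpoly_eq_eigenvalues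
  rw [hroots] at h2
  have h3 := congrArg (fun M => (Multiset.map (fun z : ℂ => √(z.re)) M).sum) h2
  simp only [Multiset.map_map, Function.comp_def] at h3
  unfold traceNorm
  have e1 : ∑ i, |lam i| = (Multiset.map (fun i => √(((lam i ^ 2 : ℝ) : ℂ).re))
      (Finset.univ : Finset (Fin d)).val).sum := by
    change ∑ i, |lam i| = ∑ i, √(((lam i ^ 2 : ℝ) : ℂ).re)
    apply Finset.sum_congr rfl
    intro i _
    rw [Complex.ofReal_re, Real.sqrt_sq_eq_abs]
  rw [e1, h3]
  rfl

/-- Jordan decomposition realising the trace norm. -/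
lemma exists_jordan {X : Op d} (hX : X.IsHermitian) :
    ∃ A B : Op d, A.PosSemidef ∧ B.PosSemidef ∧ X = A - B ∧
      A.trace.re + B.trace.re = traceNorm X := by
  obtain ⟨U, hU, hU', hX2⟩ := exists_spectral hX
  set lam := hX.eigenvalues with hlam
  refine ⟨U * diagonal (fun i => ((max (lam i) 0 : ℝ) : ℂ)) * Uᴴ,
    U * diagonal (fun i => ((max (-lam i) 0 : ℝ) : ℂ)) * Uᴴ,
    conj_diag_psd _ _ (fun i => le_max_right _ _), conj_diag_psd _ _ (fun i => le_max_right _ _),
    ?_, ?_⟩
  · conv_lhs => rw [hX2]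
    rw [← Matrix.sub_mul, ← Matrix.mul_sub]
    congr 2
    ext i j
    by_cases h : i = j
    · subst h
      simp only [diagonal_apply_eq, Matrix.sub_apply]
      rw [← Complex.ofReal_sub]
      congr 1
      rcases le_total (lam i) 0 with h | h
      · rw [max_eq_right h, max_eq_left (by linarith)]; ring
      · rw [max_eq_left h, max_eq_right (by linarith)]; ring
    · simp [h]
  · rw [traceNorm_eq hU hU' hX2, trace_conj hU, trace_conj hU, Matrix.trace_diagonal,
      Matrix.trace_diagonal, Complex.re_sum, Complex.re_sum, ← Finset.sum_add_distrib]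
    apply Finset.sum_congr rfl
    intro i _
    rw [Complex.ofReal_re, Complex.ofReal_re]
    rcases le_total (lam i) 0 with h | h
    · rw [max_eq_right h, max_eq_left (by linarith), abs_of_nonpos h]; ring
    · rw [max_eq_left h, max_eq_right (by linarith), abs_of_nonneg h]; ring

/-- any decomposition bounds the trace norm. -/
lemma traceNorm_le {A B : Op d} (hA : A.PosSemidef) (hB : B.PosSemidef) :
    traceNorm (A - B) ≤ A.trace.re + B.trace.re := by
  have hX : (A - B).IsHermitian := hA.1.sub hB.1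
  obtain ⟨U, hU, hU', hX2⟩ := exists_spectral hX
  set lam := hX.eigenvalues with hlam
  rw [traceNorm_eq hU hU' hX2]
  set sg : Fin d → ℝ := fun i => if 0 ≤ lam i then 1 else -1 with hsg
  have hsg1 : ∀ i, sg i ≤ 1 := by intro i; simp only [hsg]; split_ifs <;> norm_num
  have hsg2 : ∀ i, -1 ≤ sg i := by intro i; simp only [hsg]; split_ifs <;> norm_num
  set W : Op d := U * diagonal (fun i => (sg i : ℂ)) * Uᴴ with hW
  have h1 : ∑ i, |lam i| = (W * (A - B)).trace.re := by
    conv_rhs => rw [hX2]
    rw [hW, conj_mul hU, trace_conj hU, Matrix.diagonal_mul_diagonal, Matrix.trace_diagonal,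
      Complex.re_sum]
    apply Finset.sum_congr rfl
    intro i _
    rw [← Complex.ofReal_mul, Complex.ofReal_re]
    simp only [hsg]
    split_ifs with h
    · rw [abs_of_nonneg h]; ring
    · push Not at h; rw [abs_of_neg h]; ring
  have hm : (1 - W).PosSemidef := by
    have : 1 - W = U * diagonal (fun i => ((1 - sg i : ℝ) : ℂ)) * Uᴴ := by
      rw [hW, ← conj_one hU', ← Matrix.sub_mul, ← Matrix.mul_sub]
      congr 2
      ext i j
      by_cases h : i = j
      · subst h; simp
      · simp [h]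
    rw [this]
    exact conj_diag_psd _ _ (fun i => by have := hsg1 i; linarith)
  have hp : (1 + W).PosSemidef := by
    have : 1 + W = U * diagonal (fun i => ((1 + sg i : ℝ) : ℂ)) * Uᴴ := by
      rw [hW, ← conj_one hU', ← Matrix.add_mul, ← Matrix.mul_add]
      congr 2
      ext i j
      by_cases h : i = j
      · subst h; simp
      · simp [h]
    rw [this]
    exact conj_diag_psd _ _ (fun i => by have := hsg2 i; linarith)
  have h2 := trace_mul_re_nonneg hm hA
  have h3 := trace_mul_re_nonneg hp hB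
  rw [Matrix.sub_mul, Matrix.trace_sub, Matrix.one_mul, Complex.sub_re] at h2
  rw [Matrix.add_mul, Matrix.trace_add, Matrix.one_mul, Complex.add_re] at h3
  rw [h1, Matrix.mul_sub, Matrix.trace_sub, Complex.sub_re]
  linarith

lemma traceNorm_nonneg (X : Op d) : 0 ≤ traceNorm X :=
  Finset.sum_nonneg fun _ _ => Real.sqrt_nonneg _

variable {L : Fin m → Op d} {H : ℝ → Op d} {s : ℝ}

/-- A family of solutions indexed linearly by the initial value. -/
lemma contract_one (hd : 1 ≤ d) (hH : IsDrive H) {κ : ℝ} (hκ : 0 < κ)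
    (hleak : ∀ r, r ≠ 0 → r < d → ∀ Q ∈ Proj d r, κ ≤ leak L Q)
    {E : ℝ → ℝ → (Op d →ₗ[ℂ] Op d)} (hE : IsPropagator L H E) {s : ℝ} (hs : 0 ≤ s)
    {X : Op d} (hX : X.IsHermitian) (htr : X.trace.re = 0) :
    traceNorm (E (s + 1) s X)
      ≤ (1 - d * acoef κ (strength L) (d - 1)) * traceNorm X := by
  set δ := acoef κ (strength L) (d - 1) with hδ
  obtain ⟨A, B, hA, hB, hXAB, hsum⟩ := exists_jordan hX
  have hAB : A.trace.re = B.trace.re := by
    rw [hXAB, Matrix.trace_sub, Complex.sub_re] at htr; linarith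
  set c := A.trace.re with hc
  have hc0 : 0 ≤ c := (Complex.le_def.1 hA.trace_nonneg).1
  -- solutions
  have hsol : ∀ ρ : Op d, IsSol L H s (fun t => E t s ρ) := by
    intro ρ
    refine ⟨fun i j => hE.continuousOn s hs ρ i j, fun t ht i j => ?_⟩
    have h1 : E s s ρ = ρ := by rw [hE.init s hs]; rfl
    show E t s ρ i j = E s s ρ i j + _
    rw [h1]
    exact hE.integral s t hs ht ρ i j
  have hinit : ∀ ρ : Op d, E s s ρ = ρ := fun ρ => by rw [hE.init s hs]; rfl
  -- minorisation for a positive matrix with trace c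
  have hmin : ∀ A : Op d, A.PosSemidef → A.trace.re = c →
      (E (s + 1) s A - ((c * δ : ℝ) : ℂ) • (1 : Op d)).PosSemidef ∧
      (E (s + 1) s A).trace.re = c := by
    intro A hA hAc
    have htrA := (hsol A).trace_re hH hs (s + 1) (by linarith)
    simp only [hinit] at htrA
    refine ⟨?_, by rw [htrA, hAc]⟩
    rcases hc0.lt_or_eq with hpos | hzero
    · have hne : (c : ℂ) ≠ 0 := by exact_mod_cast hpos.ne'
      have hA' : (((c⁻¹ : ℝ) : ℂ) • A).PosSemidef := by
        apply hA.smul
        rw [Complex.le_def]; simp [hpos.le]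
      have htrA' : (((c⁻¹ : ℝ) : ℂ) • A).trace.re = 1 := by
        rw [Matrix.trace_smul, smul_eq_mul, Complex.mul_re, Complex.ofReal_re, Complex.ofReal_im,
          hAc]
        field_simp
        simp
      have h1 := minor hd hH hs (hsol (((c⁻¹ : ℝ) : ℂ) • A)) (by rw [hinit]; exact hA')
        (by rw [hinit]; exact htrA') hκ hleak
      have h2 := sub_psd_of_low
        (((hsol (((c⁻¹ : ℝ) : ℂ) • A)).herm hH hs (by rw [hinit]; exact hA'.1)) (s + 1)
          (by linarith)) h1
      have h3 : (((c : ℝ) : ℂ) • (E (s + 1) s (((c⁻¹ : ℝ) : ℂ) • A)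
          - (δ : ℂ) • (1 : Op d))).PosSemidef := by
        apply h2.smul
        rw [Complex.le_def]; simp [hpos.le]
      have h4 : ((c : ℝ) : ℂ) • (E (s + 1) s (((c⁻¹ : ℝ) : ℂ) • A) - (δ : ℂ) • (1 : Op d))
          = E (s + 1) s A - ((c * δ : ℝ) : ℂ) • (1 : Op d) := by
        rw [map_smul, smul_sub, smul_smul, smul_smul]
        congr 2
        · push_cast
          rw [mul_inv_cancel₀ hne, one_smul]
        · push_cast; rfl
      rw [h4] at h3
      exact h3
    · rw [← hzero]
      simp only [zero_mul, Complex.ofReal_zero, zero_smul, sub_zero]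
      exact (hsol A).psd hd hH hs (by rw [hinit]; exact hA) (s + 1) (by linarith)
  obtain ⟨hA1, hA2⟩ := hmin A hA rfl
  obtain ⟨hB1, hB2⟩ := hmin B hB hAB.symm
  have hdiff : E (s + 1) s X = (E (s + 1) s A - ((c * δ : ℝ) : ℂ) • (1 : Op d))
      - (E (s + 1) s B - ((c * δ : ℝ) : ℂ) • (1 : Op d)) := by
    rw [hXAB, map_sub]; abel
  rw [hdiff]
  refine (traceNorm_le hA1 hB1).trans (le_of_eq ?_)
  have htr1 : (((c * δ : ℝ) : ℂ) • (1 : Op d)).trace.re = c * δ * d := by
    rw [Matrix.trace_smul, Matrix.trace_one, Fintype.card_fin, smul_eq_mul]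
    simp
  rw [Matrix.trace_sub, Matrix.trace_sub, Complex.sub_re, Complex.sub_re, hA2, hB2, htr1, ← hsum,
    ← hAB]
  ring

end Pool.Agent.Helper57.Lindblad
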