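import Mathlib
import Pool.Agent.Helper57.Lindblad.TraceNorm
import Pool.Agent.Helper57.Lindblad.Exist

/-!
Uniform exponential contraction (MP_4e5d1f_mp).
-/

namespace Pool.Agent.Helper57.Lindblad

open scoped Matrix ComplexOrder
open Matrix MeasureTheory Set

variable {d m : ℕ} {L : Fin m → Op d} {H : ℝ → Op d} {s : ℝ}
  {E : ℝ → ℝ → (Op d →ₗ[ℂ] Op d)}

lemma IsPropagator.init' (hE : IsPropagator L H E) (hs : 0 ≤ s) (ρ : Op d) : E s s ρ = ρ := by
  rw [hE.init s hs]; rfl

lemma IsPropagator.sol (hE : IsPropagator L H E) (hs : 0 ≤ s) (ρ : Op d) :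
    IsSol L H s (fun t => E t s ρ) := by
  refine ⟨fun i j => hE.continuousOn s hs ρ i j, fun t ht i j => ?_⟩
  show E t s ρ i j = E s s ρ i j + _
  rw [hE.init' hs]
  exact hE.integral s t hs ht ρ i j

lemma IsPropagator.comp (hH : IsDrive H) (hE : IsPropagator L H E) (hs : 0 ≤ s) {u t : ℝ}
    (hu : s ≤ u) (ht : u ≤ t) (X : Op d) : E t s X = E t u (E u s X) := by
  have h1 : IsSol L H u (fun t => E t s X) := (hE.sol hs X).restrict hH hs hu
  have h2 := hE.sol (hs.trans hu) (E u s X)
  exact h1.unique hH (hs.trans hu) h2 (by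
    show E u s X = E u u (E u s X)
    rw [hE.init' (hs.trans hu)]) t ht

lemma nonexpansive (hd : 1 ≤ d) (hH : IsDrive H) (hE : IsPropagator L H E) (hs : 0 ≤ s) {t : ℝ}
    (ht : s ≤ t) {X : Op d} (hX : X.IsHermitian) : traceNorm (E t s X) ≤ traceNorm X := by
  obtain ⟨A, B, hA, hB, hXAB, hsum⟩ := exists_jordan hX
  have hA1 : (E t s A).PosSemidef :=
    (hE.sol hs A).psd hd hH hs (by rw [hE.init' hs]; exact hA) t ht
  have hB1 : (E t s B).PosSemidef :=
    (hE.sol hs B).psd hd hH hs (by rw [hE.init' hs]; exact hB) t ht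
  have hA2 : (E t s A).trace.re = A.trace.re := by
    have := (hE.sol hs A).trace_re hH hs t ht
    simpa only [hE.init' hs] using this
  have hB2 : (E t s B).trace.re = B.trace.re := by
    have := (hE.sol hs B).trace_re hH hs t ht
    simpa only [hE.init' hs] using this
  have h1 := traceNorm_le hA1 hB1
  rw [← map_sub, ← hXAB, hA2, hB2, hsum] at h1
  exact h1

/-- Uniform contraction of all driven evolutions. -/
theorem uniform_contraction (hd : 1 ≤ d) (L : Fin m → Op d)
    (hL : Algebra.adjoin ℂ (Set.range L) = ⊤) :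
    ∃ K : ℝ, 0 < K ∧ ∃ γ : ℝ, 0 < γ ∧ ∀ H : ℝ → Op d, IsDrive H →
      ∀ E, IsPropagator L H E → ContractiveWith K γ E := by
  obtain ⟨κ, hκ, hleak⟩ := exists_kappa L hL
  set δ := acoef κ (strength L) (d - 1) with hδ
  have hδ0 : 0 < δ := acoef_pos hκ (strength_nonneg L) _
  set q : ℝ := max (1 - d * δ) (1 / 2) with hq
  have hq0 : 0 < q := lt_of_lt_of_le (by norm_num) (le_max_right _ _)
  have hd0 : (0 : ℝ) < d := by exact_mod_cast hd
  have hq1 : q < 1 := by
    apply max_lt
    · have : 0 < (d : ℝ) * δ := by positivity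
      linarith
    · norm_num
  have hlog : Real.log q < 0 := Real.log_neg hq0 hq1
  refine ⟨q⁻¹, inv_pos.2 hq0, - Real.log q, by linarith, ?_⟩
  intro H hH E hE
  -- one step
  have hstep : ∀ s, 0 ≤ s → ∀ X : Op d, X.IsHermitian → X.trace.re = 0 →
      traceNorm (E (s + 1) s X) ≤ q * traceNorm X := by
    intro s hs X hX htr
    refine (contract_one hd hH hκ hleak hE hs hX htr).trans ?_
    exact mul_le_mul_of_nonneg_right (le_max_left _ _) (traceNorm_nonneg X)
  -- iterate
  have hiter : ∀ n : ℕ, ∀ s, 0 ≤ s → ∀ X : Op d, X.IsHermitian → X.trace.re = 0 →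
      traceNorm (E (s + n) s X) ≤ q ^ n * traceNorm X := by
    intro n
    induction n with
    | zero =>
      intro s hs X _ _
      simp only [Nat.cast_zero, add_zero, pow_zero, one_mul]
      rw [hE.init' hs]
    | succ n ih =>
      intro s hs X hX htr
      have hn : (0 : ℝ) ≤ n := Nat.cast_nonneg n
      have h1 : s + ((n + 1 : ℕ) : ℝ) = (s + n) + 1 := by push_cast; ring
      rw [h1, hE.comp hH hs (u := s + n) (by linarith) (by linarith) X]
      have hherm : (E (s + n) s X).IsHermitian :=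
        (hE.sol hs X).herm hH hs (by rw [hE.init' hs]; exact hX) (s + n) (by linarith)
      have htr2 : (E (s + n) s X).trace.re = 0 := by
        have := (hE.sol hs X).trace_re hH hs (s + n) (by linarith)
        simp only [hE.init' hs] at this
        rw [this, htr]
      refine (hstep (s + n) (by linarith) _ hherm htr2).trans ?_
      have := mul_le_mul_of_nonneg_left (ih s hs X hX htr) hq0.le
      rw [pow_succ]
      linarith
  intro ρ σ hρ hσ s t hs hst
  have hX : (ρ - σ).IsHermitian := hρ.1.1.sub hσ.1.1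
  have htr : (ρ - σ).trace.re = 0 := by
    rw [Matrix.trace_sub, hρ.2, hσ.2]; simp
  rw [← map_sub]
  set X := ρ - σ with hXdef
  set n := ⌊t - s⌋₊ with hn
  have hts : 0 ≤ t - s := by linarith
  have hn1 : (n : ℝ) ≤ t - s := Nat.floor_le hts
  have hn2 : t - s < n + 1 := Nat.lt_floor_add_one _
  have hn0 : (0 : ℝ) ≤ n := Nat.cast_nonneg n
  have hherm : (E (s + n) s X).IsHermitian :=
    (hE.sol hs X).herm hH hs (by rw [hE.init' hs]; exact hX) (s + n) (by linarith)
  have h1 : traceNorm (E t s X) ≤ traceNorm (E (s + n) s X) := by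
    rw [hE.comp hH hs (u := s + n) (by linarith) (by linarith) X]
    exact nonexpansive hd hH hE (by linarith) (by linarith) hherm
  have h2 := hiter n s hs X hX htr
  have h3 : q ^ n ≤ q⁻¹ * Real.exp (-(-Real.log q) * (t - s)) := by
    have e1 : q ^ n = Real.exp (n * Real.log q) := by
      rw [← Real.log_pow, Real.exp_log (by positivity)]
    have e2 : q⁻¹ = Real.exp (- Real.log q) := by
      rw [Real.exp_neg, Real.exp_log hq0]
    rw [e1, e2, ← Real.exp_add]
    apply Real.exp_le_exp.2
    nlinarith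
  calc traceNorm (E t s X) ≤ q ^ n * traceNorm X := h1.trans h2
    _ ≤ _ := mul_le_mul_of_nonneg_right h3 (traceNorm_nonneg X)

end Pool.Agent.Helper57.Lindblad
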